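import Mathlib

set_option autoImplicit false

open Finset

namespace Pool.Agent.MP_e813d2_pr

/-! ## Connectivity in a set of edges -/

section Conn
variable {V : Type*}

/-- Connectivity by the edges in `w`. -/
def Cn (w : Set (Sym2 V)) (x y : V) : Prop := Relation.ReflTransGen (fun x y => s(x, y) ∈ w) x y

theorem Cn.refl (w : Set (Sym2 V)) (x : V) : Cn w x x := Relation.ReflTransGen.refl

theorem Cn.trans {w : Set (Sym2 V)} {x y z : V} (h : Cn w x y) (h' : Cn w y z) : Cn w x z :=
  Relation.ReflTransGen.trans h h'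

theorem Cn.symm {w : Set (Sym2 V)} {x y : V} (h : Cn w x y) : Cn w y x := by
  induction h with
  | refl => exact Cn.refl _ _
  | tail _ hbc ih =>
    exact Cn.trans (Relation.ReflTransGen.single (by rwa [Sym2.eq_swap])) ih

theorem Cn.comm {w : Set (Sym2 V)} {x y : V} : Cn w x y ↔ Cn w y x := ⟨Cn.symm, Cn.symm⟩

theorem Cn.single {w : Set (Sym2 V)} {x y : V} (h : s(x, y) ∈ w) : Cn w x y :=
  Relation.ReflTransGen.single h

theorem Cn.mono {w w' : Set (Sym2 V)} (hw : w ⊆ w') {x y : V} (h : Cn w x y) : Cn w' x y := by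
  induction h with
  | refl => exact Cn.refl _ _
  | tail _ hbc ih => exact ih.trans (Relation.ReflTransGen.single (hw hbc))

theorem cn_insert {w : Set (Sym2 V)} {u v x y : V} :
    Cn (insert s(u, v) w) x y ↔ Cn w x y ∨ (Cn w x u ∧ Cn w v y) ∨ (Cn w x v ∧ Cn w u y) := by
  constructor
  · intro h
    induction h with
    | refl => exact Or.inl (Cn.refl _ _)
    | tail _ hbc ih =>
      rename_i b c _
      rcases hbc with hbc | hbc
      · rcases Sym2.eq_iff.1 hbc with ⟨rfl, rfl⟩ | ⟨rfl, rfl⟩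
        · rcases ih with ih | ⟨ih1, ih2⟩ | ⟨ih1, ih2⟩
          · exact Or.inr (Or.inl ⟨ih, Cn.refl _ _⟩)
          · exact Or.inr (Or.inl ⟨ih1, Cn.refl _ _⟩)
          · exact Or.inl ih1
        · rcases ih with ih | ⟨ih1, ih2⟩ | ⟨ih1, ih2⟩
          · exact Or.inr (Or.inr ⟨ih, Cn.refl _ _⟩)
          · exact Or.inl ih1
          · exact Or.inr (Or.inr ⟨ih1, Cn.refl _ _⟩)
      · rcases ih with ih | ⟨ih1, ih2⟩ | ⟨ih1, ih2⟩
        · exact Or.inl (ih.trans (Cn.single hbc))
        · exact Or.inr (Or.inl ⟨ih1, ih2.trans (Cn.single hbc)⟩)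
        · exact Or.inr (Or.inr ⟨ih1, ih2.trans (Cn.single hbc)⟩)
  · intro h
    have hm : ∀ {a b : V}, Cn w a b → Cn (insert s(u, v) w) a b :=
      fun h => h.mono (Set.subset_insert _ _)
    have huv : Cn (insert s(u, v) w) u v := Cn.single (Set.mem_insert _ _)
    rcases h with h | ⟨h1, h2⟩ | ⟨h1, h2⟩
    · exact hm h
    · exact (hm h1).trans (huv.trans (hm h2))
    · exact (hm h1).trans (huv.symm.trans (hm h2))

/-- Connection from a set of sources. -/
def From (w : Set (Sym2 V)) (S : Set V) (x : V) : Prop := ∃ s ∈ S, Cn w s x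

theorem From.mono {w : Set (Sym2 V)} {S S' : Set V} (h : S ⊆ S') {x : V} (hx : From w S x) :
    From w S' x := by
  obtain ⟨s, hs, hx⟩ := hx
  exact ⟨s, h hs, hx⟩

theorem From.mono_edges {w w' : Set (Sym2 V)} (hw : w ⊆ w') {S : Set V} {x : V}
    (hx : From w S x) : From w' S x := by
  obtain ⟨s, hs, hx⟩ := hx
  exact ⟨s, hs, hx.mono hw⟩

theorem from_insert {w : Set (Sym2 V)} {S : Set V} {s t x : V} (hs : s ∈ S) :
    From (insert s(s, t) w) S x ↔ From w (insert t S) x := by
  constructor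
  · rintro ⟨r, hr, hx⟩
    rcases cn_insert.1 hx with h | ⟨h1, h2⟩ | ⟨h1, h2⟩
    · exact ⟨r, Set.mem_insert_of_mem _ hr, h⟩
    · exact ⟨t, Set.mem_insert _ _, h2⟩
    · exact ⟨s, Set.mem_insert_of_mem _ hs, h2⟩
  · rintro ⟨r, hr, hx⟩
    rcases hr with rfl | hr
    · exact ⟨s, hs, cn_insert.2 (Or.inr (Or.inl ⟨Cn.refl _ _, hx⟩))⟩
    · exact ⟨r, hr, hx.mono (Set.subset_insert _ _)⟩

/-- Two sets of vertices are separated. -/
def Sep (w : Set (Sym2 V)) (S T : Set V) : Prop := ∀ t ∈ T, ¬ From w S t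

theorem Sep.symm {w : Set (Sym2 V)} {S T : Set V} (h : Sep w S T) : Sep w T S := by
  rintro s hs ⟨t, ht, hc⟩
  exact h t ht ⟨s, hs, hc.symm⟩

theorem sep_comm {w : Set (Sym2 V)} {S T : Set V} : Sep w S T ↔ Sep w T S := ⟨Sep.symm, Sep.symm⟩

theorem sep_insert {w : Set (Sym2 V)} {S T : Set V} {s t : V} (hs : s ∈ S) :
    Sep (insert s(s, t) w) S T ↔ Sep w (insert t S) T := by
  unfold Sep
  simp only [from_insert hs]

/-- If the source set is separated from `T`, then adding an edge at the source set does not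
change the connections from `T`. -/
theorem from_insert_of_sep {w : Set (Sym2 V)} {S T : Set V} {s t x : V} (hs : s ∈ S)
    (h : Sep w (insert t S) T) : From (insert s(s, t) w) T x ↔ From w T x := by
  constructor
  · rintro ⟨r, hr, hx⟩
    rcases cn_insert.1 hx with h' | ⟨h1, h2⟩ | ⟨h1, h2⟩
    · exact ⟨r, hr, h'⟩
    · exact absurd ⟨s, Set.mem_insert_of_mem _ hs, h1.symm⟩ (h r hr)
    · exact absurd ⟨t, Set.mem_insert _ _, h1.symm⟩ (h r hr)
  · exact From.mono_edges (Set.subset_insert _ _)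

/-- If no edge of `w` touches `S`, the only vertices reached from `S` are those of `S`. -/
theorem from_iff_of_no_edge {w : Set (Sym2 V)} {S : Set V}
    (h : ∀ s ∈ S, ∀ t, s(s, t) ∉ w) {x : V} : From w S x ↔ x ∈ S := by
  constructor
  · rintro ⟨s, hs, hx⟩
    unfold Cn at hx
    rcases Relation.ReflTransGen.cases_head hx with rfl | ⟨c, hc, -⟩
    · exact hs
    · exact absurd hc (h s hs c)
  · intro hx
    exact ⟨x, hx, Cn.refl _ _⟩

end Conn

/-! ## Finite product expectations -/

section Ex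
variable {ι : Type*} [DecidableEq ι]

/-- Expectation of `f` when every `e ∈ F` is kept independently with probability `p e`. -/
noncomputable def Ex (p : ι → ℝ) (F : Finset ι) (f : Finset ι → ℝ) : ℝ :=
  ∑ w ∈ F.powerset, (∏ e ∈ w, p e) * (∏ e ∈ F \ w, (1 - p e)) * f w

theorem ex_empty (p : ι → ℝ) (f : Finset ι → ℝ) : Ex p ∅ f = f ∅ := by simp [Ex]

theorem ex_insert (p : ι → ℝ) {F : Finset ι} {e : ι} (he : e ∉ F) (f : Finset ι → ℝ) :
    Ex p (insert e F) f = p e * Ex p F (fun w => f (insert e w)) + (1 - p e) * Ex p F f := by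
  unfold Ex
  rw [Finset.sum_powerset_insert he, add_comm, Finset.mul_sum, Finset.mul_sum]
  congr 1
  · refine Finset.sum_congr rfl fun w hw => ?_
    have hw' : w ⊆ F := Finset.mem_powerset.1 hw
    have hew : e ∉ w := fun h => he (hw' h)
    rw [Finset.prod_insert hew, Finset.insert_sdiff_insert, Finset.sdiff_insert_of_notMem he]
    ring
  · refine Finset.sum_congr rfl fun w hw => ?_
    have hw' : w ⊆ F := Finset.mem_powerset.1 hw
    have hew : e ∉ w := fun h => he (hw' h)
    rw [Finset.insert_sdiff_of_notMem _ hew, Finset.prod_insert (by simp [he])]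
    ring

theorem ex_add (p : ι → ℝ) (F : Finset ι) (f g : Finset ι → ℝ) :
    Ex p F (fun w => f w + g w) = Ex p F f + Ex p F g := by
  unfold Ex
  rw [← Finset.sum_add_distrib]
  exact Finset.sum_congr rfl fun w _ => by ring

theorem ex_congr (p : ι → ℝ) {F : Finset ι} {f g : Finset ι → ℝ} (h : ∀ w, w ⊆ F → f w = g w) :
    Ex p F f = Ex p F g := by
  unfold Ex
  exact Finset.sum_congr rfl fun w hw => by rw [h w (Finset.mem_powerset.1 hw)]

theorem ex_const (p : ι → ℝ) (F : Finset ι) (c : ℝ) : Ex p F (fun _ => c) = c := by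
  induction F using Finset.induction_on with
  | empty => exact ex_empty _ _
  | insert e F he ih => rw [ex_insert p he, ih]; ring

theorem ex_mono {p : ι → ℝ} (hp : ∀ e, 0 ≤ p e ∧ p e ≤ 1) {F : Finset ι} {f g : Finset ι → ℝ}
    (h : ∀ w, w ⊆ F → f w ≤ g w) : Ex p F f ≤ Ex p F g := by
  unfold Ex
  refine Finset.sum_le_sum fun w hw => ?_
  refine mul_le_mul_of_nonneg_left (h w (Finset.mem_powerset.1 hw)) ?_
  exact mul_nonneg (Finset.prod_nonneg fun e _ => (hp e).1)
    (Finset.prod_nonneg fun e _ => by linarith [(hp e).2])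

open Classical in
/-- Indicator of a proposition. -/
noncomputable def ind (P : Prop) : ℝ := if P then 1 else 0

theorem ind_nonneg (P : Prop) : 0 ≤ ind P := by unfold ind; split_ifs <;> norm_num
theorem ind_le_one (P : Prop) : ind P ≤ 1 := by unfold ind; split_ifs <;> norm_num
theorem ind_mono {P Q : Prop} (h : P → Q) : ind P ≤ ind Q := by
  unfold ind
  split_ifs with h1 h2
  · exact le_rfl
  · exact absurd (h h1) h2
  · exact zero_le_one
  · exact le_rfl
theorem ind_congr {P Q : Prop} (h : P ↔ Q) : ind P = ind Q := by rw [propext h]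
theorem ind_true {P : Prop} (h : P) : ind P = 1 := by unfold ind; simp [h]
theorem ind_false {P : Prop} (h : ¬ P) : ind P = 0 := by unfold ind; simp [h]

/-- Probability of the event `A`. -/
noncomputable def Pr (p : ι → ℝ) (F : Finset ι) (A : Finset ι → Prop) : ℝ :=
  Ex p F (fun w => ind (A w))

theorem pr_insert (p : ι → ℝ) {F : Finset ι} {e : ι} (he : e ∉ F) (A : Finset ι → Prop) :
    Pr p (insert e F) A = p e * Pr p F (fun w => A (insert e w)) + (1 - p e) * Pr p F A :=
  ex_insert p he _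

theorem pr_congr (p : ι → ℝ) {F : Finset ι} {A B : Finset ι → Prop}
    (h : ∀ w, w ⊆ F → (A w ↔ B w)) : Pr p F A = Pr p F B :=
  ex_congr p fun w hw => ind_congr (h w hw)

theorem pr_mono {p : ι → ℝ} (hp : ∀ e, 0 ≤ p e ∧ p e ≤ 1) {F : Finset ι} {A B : Finset ι → Prop}
    (h : ∀ w, w ⊆ F → A w → B w) : Pr p F A ≤ Pr p F B :=
  ex_mono hp fun w hw => ind_mono (h w hw)

theorem pr_nonneg {p : ι → ℝ} (hp : ∀ e, 0 ≤ p e ∧ p e ≤ 1) (F : Finset ι)
    (A : Finset ι → Prop) : 0 ≤ Pr p F A := by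
  have := ex_mono (p := p) hp (F := F) (f := fun _ => 0) (g := fun w => ind (A w))
    (fun w _ => ind_nonneg _)
  rwa [ex_const] at this

theorem pr_le_one {p : ι → ℝ} (hp : ∀ e, 0 ≤ p e ∧ p e ≤ 1) (F : Finset ι)
    (A : Finset ι → Prop) : Pr p F A ≤ 1 := by
  have := ex_mono (p := p) hp (F := F) (f := fun w => ind (A w)) (g := fun _ => 1)
    (fun w _ => ind_le_one _)
  rwa [ex_const] at this

theorem pr_false {p : ι → ℝ} (F : Finset ι) {A : Finset ι → Prop} (h : ∀ w, w ⊆ F → ¬ A w) :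
    Pr p F A = 0 := by
  unfold Pr
  rw [ex_congr p (g := fun _ => 0) fun w hw => ind_false (h w hw), ex_const]

theorem pr_true {p : ι → ℝ} (F : Finset ι) {A : Finset ι → Prop} (h : ∀ w, w ⊆ F → A w) :
    Pr p F A = 1 := by
  unfold Pr
  rw [ex_congr p (g := fun _ => 1) fun w hw => ind_true (h w hw), ex_const]

/-- Increasing events are more likely with more edges. -/
theorem pr_mono_insert {p : ι → ℝ} (hp : ∀ e, 0 ≤ p e ∧ p e ≤ 1) {F : Finset ι} {e : ι}
    (he : e ∉ F) {A : Finset ι → Prop} (hA : ∀ w, A w → A (insert e w)) :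
    Pr p F A ≤ Pr p (insert e F) A := by
  rw [pr_insert p he]
  have h1 : Pr p F A ≤ Pr p F (fun w => A (insert e w)) := pr_mono hp fun w _ => hA w
  nlinarith [(hp e).1, (hp e).2]

/-- Edges with probability one are always present. -/
theorem pr_union_one {p : ι → ℝ} {O F : Finset ι} (hO : ∀ e ∈ O, p e = 1) (hd : Disjoint O F)
    (A : Finset ι → Prop) : Pr p (O ∪ F) A = Pr p F (fun w => A (O ∪ w)) := by
  induction O using Finset.induction_on generalizing A with
  | empty => simp
  | insert e O he ih =>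
    have heF : e ∉ F := fun h => Finset.disjoint_left.1 hd (Finset.mem_insert_self _ _) h
    have hd' : Disjoint O F := hd.mono_left (Finset.subset_insert _ _)
    rw [Finset.insert_union, pr_insert p (by simp [he, heF]), hO e (Finset.mem_insert_self _ _),
      ih (fun e he => hO e (Finset.mem_insert_of_mem he)) hd']
    simp [Finset.insert_union]

theorem pr_congr_prob {p p' : ι → ℝ} {F : Finset ι} (h : ∀ e ∈ F, p e = p' e)
    (A : Finset ι → Prop) : Pr p F A = Pr p' F A := by
  unfold Pr Ex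
  refine Finset.sum_congr rfl fun w hw => ?_
  have hw' : w ⊆ F := Finset.mem_powerset.1 hw
  congr 2
  · exact Finset.prod_congr rfl fun e he => h e (hw' he)
  · exact Finset.prod_congr rfl fun e he => by rw [h e (Finset.mem_sdiff.1 he).1]

end Ex

end Pool.Agent.MP_e813d2_pr
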