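import Mathlib
import Pool.Agent.MP_e813d2_pr.Finite

set_option autoImplicit false
set_option linter.unusedSectionVars false
set_option linter.unusedVariables false

open Finset

namespace Pool.Agent.MP_e813d2_pr

/-- The four functions theorem on one bit. -/
theorem four_fun_one_bit {p a0 a1 b0 b1 c0 c1 d0 d1 : ℝ} (hp0 : 0 ≤ p) (hp1 : p ≤ 1)
    (ha0 : 0 ≤ a0) (ha1 : 0 ≤ a1) (hb0 : 0 ≤ b0) (hb1 : 0 ≤ b1) (hc0 : 0 ≤ c0) (hc1 : 0 ≤ c1)
    (hd0 : 0 ≤ d0) (hd1 : 0 ≤ d1) (h00 : a0 * b0 ≤ c0 * d0) (h11 : a1 * b1 ≤ c1 * d1)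
    (h10 : a1 * b0 ≤ c1 * d0) (h01 : a0 * b1 ≤ c1 * d0) :
    (p * a1 + (1 - p) * a0) * (p * b1 + (1 - p) * b0) ≤
      (p * c1 + (1 - p) * c0) * (p * d1 + (1 - p) * d0) := by
  have hkey : a1 * b0 + a0 * b1 ≤ c1 * d0 + c0 * d1 := by
    have hA : 0 ≤ c1 * d0 := mul_nonneg hc1 hd0
    have hD : 0 ≤ c0 * d1 := mul_nonneg hc0 hd1
    rcases hA.eq_or_lt with hA0 | hA0
    · nlinarith
    · have hxy : (a1 * b0) * (a0 * b1) ≤ (c1 * d0) * (c0 * d1) := by
        have := mul_le_mul h00 h11 (mul_nonneg ha1 hb1) (mul_nonneg hc0 hd0)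
        nlinarith
      have h2 : 0 ≤ (c1 * d0 - a1 * b0) * (c1 * d0 - a0 * b1) :=
        mul_nonneg (by linarith) (by linarith)
      have h3 : (c1 * d0) * (a1 * b0 + a0 * b1) ≤ (c1 * d0) * (c1 * d0 + c0 * d1) := by
        nlinarith
      exact le_of_mul_le_mul_left h3 hA0
  have e1 : (p * a1 + (1 - p) * a0) * (p * b1 + (1 - p) * b0) =
      p ^ 2 * (a1 * b1) + (1 - p) ^ 2 * (a0 * b0) + p * (1 - p) * (a1 * b0 + a0 * b1) := by ring
  have e2 : (p * c1 + (1 - p) * c0) * (p * d1 + (1 - p) * d0) =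
      p ^ 2 * (c1 * d1) + (1 - p) ^ 2 * (c0 * d0) + p * (1 - p) * (c1 * d0 + c0 * d1) := by ring
  rw [e1, e2]
  have hpq : 0 ≤ p * (1 - p) := mul_nonneg hp0 (by linarith)
  have t1 := mul_le_mul_of_nonneg_left h11 (sq_nonneg p)
  have t2 := mul_le_mul_of_nonneg_left h00 (sq_nonneg (1 - p))
  have t3 := mul_le_mul_of_nonneg_left hkey hpq
  linarith

section
variable {V : Type*} [DecidableEq V] {p : Sym2 V → ℝ}

/-- `S → a`, `T → v`, `S` and `T` separated. -/
def E1 (S T : Set V) (a v : V) (w : Finset (Sym2 V)) : Prop :=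
  From (w : Set (Sym2 V)) S a ∧ From (w : Set (Sym2 V)) T v ∧ Sep (w : Set (Sym2 V)) S T
/-- `S` and `T` separated. -/
def E2 (S T : Set V) (w : Finset (Sym2 V)) : Prop := Sep (w : Set (Sym2 V)) S T
/-- `S → a`, `S` and `T` separated. -/
def E3 (S T : Set V) (a : V) (w : Finset (Sym2 V)) : Prop :=
  From (w : Set (Sym2 V)) S a ∧ Sep (w : Set (Sym2 V)) S T

theorem e1_swap {S T : Set V} {a v : V} {w : Finset (Sym2 V)} : E1 S T a v w ↔ E1 T S v a w := by
  unfold E1
  rw [sep_comm (S := S)]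
  tauto

theorem e2_swap {S T : Set V} {w : Finset (Sym2 V)} : E2 S T w ↔ E2 T S w := sep_comm

theorem e1_insert {S T : Set V} {a v s t : V} (hs : s ∈ S) (w : Finset (Sym2 V)) :
    E1 S T a v (insert s(s, t) w) ↔ E1 (insert t S) T a v w := by
  unfold E1
  rw [Finset.coe_insert, from_insert hs, sep_insert hs]
  constructor
  · rintro ⟨h1, h2, h3⟩
    exact ⟨h1, (from_insert_of_sep hs h3).1 h2, h3⟩
  · rintro ⟨h1, h2, h3⟩
    exact ⟨h1, (from_insert_of_sep hs h3).2 h2, h3⟩

theorem e2_insert {S T : Set V} {s t : V} (hs : s ∈ S) (w : Finset (Sym2 V)) :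
    E2 S T (insert s(s, t) w) ↔ E2 (insert t S) T w := by
  unfold E2
  rw [Finset.coe_insert, sep_insert hs]

theorem e3_insert {S T : Set V} {a s t : V} (hs : s ∈ S) (w : Finset (Sym2 V)) :
    E3 S T a (insert s(s, t) w) ↔ E3 (insert t S) T a w := by
  unfold E3
  rw [Finset.coe_insert, from_insert hs, sep_insert hs]

theorem e3_insert' {S T : Set V} {v s t : V} (hs : s ∈ S) (w : Finset (Sym2 V)) :
    E3 T S v (insert s(s, t) w) ↔ E3 T (insert t S) v w := by
  unfold E3
  rw [Finset.coe_insert, sep_comm (S := T), sep_comm (S := T), sep_insert hs]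
  constructor
  · rintro ⟨h1, h3⟩
    exact ⟨(from_insert_of_sep hs h3).1 h1, h3⟩
  · rintro ⟨h1, h3⟩
    exact ⟨(from_insert_of_sep hs h3).2 h1, h3⟩

/-- Disjoint connections are at most as likely as independent ones. -/
theorem pr_disj (hp : ∀ e, 0 ≤ p e ∧ p e ≤ 1) (F : Finset (Sym2 V)) :
    ∀ (S T : Set V) (a v : V), Pr p F (E1 S T a v) ≤
      Pr p F (fun w => From (w : Set (Sym2 V)) S a) *
        Pr p F (fun w => From (w : Set (Sym2 V)) T v) := by
  induction F using Finset.strongInduction with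
  | H F ih =>
    intro S T a v
    by_cases h : ∃ s ∈ S, ∃ t, s(s, t) ∈ F
    · obtain ⟨s, hs, t, he⟩ := h
      set e := s(s, t) with hedef
      have hF : F = insert e (F.erase e) := (Finset.insert_erase he).symm
      have hne : e ∉ F.erase e := Finset.notMem_erase _ _
      have hlt : F.erase e ⊂ F := Finset.erase_ssubset he
      have ih1 := ih _ hlt (insert t S) T a v
      have ih0 := ih _ hlt S T a v
      rw [hF, pr_insert p hne, pr_insert p hne (fun w => From (w : Set (Sym2 V)) S a)]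
      have r1 : Pr p (F.erase e) (fun w => E1 S T a v (insert e w)) =
          Pr p (F.erase e) (E1 (insert t S) T a v) := pr_congr p fun w _ => e1_insert hs w
      have r2 : Pr p (F.erase e) (fun w => From ((insert e w : Finset (Sym2 V)) : Set (Sym2 V)) S a) =
          Pr p (F.erase e) (fun w => From (w : Set (Sym2 V)) (insert t S) a) :=
        pr_congr p fun w _ => by rw [Finset.coe_insert, from_insert hs]
      rw [r1, r2]
      have hm : Pr p (F.erase e) (fun w => From (w : Set (Sym2 V)) T v) ≤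
          Pr p (insert e (F.erase e)) (fun w => From (w : Set (Sym2 V)) T v) :=
        pr_mono_insert hp hne fun w hw => hw.mono_edges (by simp)
      have hpe := hp e
      have hq : 0 ≤ 1 - p e := by linarith [hpe.2]
      have n1 : 0 ≤ Pr p (F.erase e) (fun w => From (w : Set (Sym2 V)) (insert t S) a) :=
        pr_nonneg hp _ _
      have n0 : 0 ≤ Pr p (F.erase e) (fun w => From (w : Set (Sym2 V)) S a) := pr_nonneg hp _ _
      calc p e * Pr p (F.erase e) (E1 (insert t S) T a v) +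
            (1 - p e) * Pr p (F.erase e) (E1 S T a v)
          ≤ p e * (Pr p (F.erase e) (fun w => From (w : Set (Sym2 V)) (insert t S) a) *
              Pr p (F.erase e) (fun w => From (w : Set (Sym2 V)) T v)) +
            (1 - p e) * (Pr p (F.erase e) (fun w => From (w : Set (Sym2 V)) S a) *
              Pr p (F.erase e) (fun w => From (w : Set (Sym2 V)) T v)) :=
            add_le_add (mul_le_mul_of_nonneg_left ih1 hpe.1) (mul_le_mul_of_nonneg_left ih0 hq)
        _ = (p e * Pr p (F.erase e) (fun w => From (w : Set (Sym2 V)) (insert t S) a) +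
            (1 - p e) * Pr p (F.erase e) (fun w => From (w : Set (Sym2 V)) S a)) *
              Pr p (F.erase e) (fun w => From (w : Set (Sym2 V)) T v) := by ring
        _ ≤ _ := mul_le_mul_of_nonneg_left hm
            (add_nonneg (mul_nonneg hpe.1 n1) (mul_nonneg hq n0))
    · push Not at h
      have hfrom : ∀ w : Finset (Sym2 V), w ⊆ F → ∀ x, From (w : Set (Sym2 V)) S x ↔ x ∈ S :=
        fun w hw x => from_iff_of_no_edge fun s hs t ht => h s hs t (hw ht)
      by_cases ha : a ∈ S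
      · have r : Pr p F (fun w => From (w : Set (Sym2 V)) S a) = 1 :=
          pr_true F fun w hw => (hfrom w hw a).2 ha
        rw [r, one_mul]
        exact pr_mono hp fun w _ hw => hw.2.1
      · have r : Pr p F (E1 S T a v) = 0 :=
          pr_false F fun w hw h1 => ha ((hfrom w hw a).1 h1.1)
        rw [r]
        exact mul_nonneg (pr_nonneg hp _ _) (pr_nonneg hp _ _)

/-- The inductive statement behind the van den Berg-Haggstrom-Kahn inequality. -/
def Claim (p : Sym2 V → ℝ) (F : Finset (Sym2 V)) (S1 S2 T1 T2 : Set V) (a v : V) : Prop :=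
  Pr p F (E1 S1 T1 a v) * Pr p F (E2 S2 T2) ≤
    Pr p F (E3 (S1 ∪ S2) (T1 ∩ T2) a) * Pr p F (E3 (T1 ∪ T2) (S1 ∩ S2) v)

theorem Claim.swap {F : Finset (Sym2 V)} {S1 S2 T1 T2 : Set V} {a v : V}
    (h : Claim p F T1 T2 S1 S2 v a) : Claim p F S1 S2 T1 T2 a v := by
  unfold Claim at *
  rw [pr_congr p (fun w _ => e1_swap (S := S1)), pr_congr p (fun w _ => e2_swap (S := S2))]
  linarith

theorem claim_step (hp : ∀ e, 0 ≤ p e ∧ p e ≤ 1) {F : Finset (Sym2 V)} {S1 S2 T1 T2 : Set V}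
    {a v s t : V} (hs : s ∈ S1 ∩ S2) (he : s(s, t) ∉ F)
    (ih : ∀ (S1 S2 T1 T2 : Set V) (a v : V), Claim p F S1 S2 T1 T2 a v) :
    Claim p (insert s(s, t) F) S1 S2 T1 T2 a v := by
  unfold Claim
  set e := s(s, t) with hedef
  rw [pr_insert p he, pr_insert p he, pr_insert p he, pr_insert p he]
  have r1 : Pr p F (fun w => E1 S1 T1 a v (insert e w)) = Pr p F (E1 (insert t S1) T1 a v) :=
    pr_congr p fun w _ => e1_insert hs.1 w
  have r2 : Pr p F (fun w => E2 S2 T2 (insert e w)) = Pr p F (E2 (insert t S2) T2) :=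
    pr_congr p fun w _ => e2_insert hs.2 w
  have r3 : Pr p F (fun w => E3 (S1 ∪ S2) (T1 ∩ T2) a (insert e w)) =
      Pr p F (E3 (insert t (S1 ∪ S2)) (T1 ∩ T2) a) :=
    pr_congr p fun w _ => e3_insert (Set.mem_union_left _ hs.1) w
  have r4 : Pr p F (fun w => E3 (T1 ∪ T2) (S1 ∩ S2) v (insert e w)) =
      Pr p F (E3 (T1 ∪ T2) (insert t (S1 ∩ S2)) v) :=
    pr_congr p fun w _ => e3_insert' hs w
  rw [r1, r2, r3, r4]
  have hanti : ∀ {S S' : Set V}, S ⊆ S' → Pr p F (E3 (T1 ∪ T2) S' v) ≤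
      Pr p F (E3 (T1 ∪ T2) S v) := fun {S S'} hS =>
    pr_mono hp fun w _ hw => ⟨hw.1, fun x hx => hw.2 x (hS hx)⟩
  have hpe := hp e
  refine four_fun_one_bit hpe.1 hpe.2 (pr_nonneg hp _ _) (pr_nonneg hp _ _) (pr_nonneg hp _ _)
    (pr_nonneg hp _ _) (pr_nonneg hp _ _) (pr_nonneg hp _ _) (pr_nonneg hp _ _)
    (pr_nonneg hp _ _) (ih S1 S2 T1 T2 a v) ?_ ?_ ?_
  · have := ih (insert t S1) (insert t S2) T1 T2 a v
    unfold Claim at this
    have h1 : insert t S1 ∪ insert t S2 = insert t (S1 ∪ S2) := by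
      ext x; simp only [Set.mem_union, Set.mem_insert_iff]; tauto
    have h2 : insert t S1 ∩ insert t S2 = insert t (S1 ∩ S2) := (Set.insert_inter_distrib _ _ _).symm
    rwa [h1, h2] at this
  · have := ih (insert t S1) S2 T1 T2 a v
    unfold Claim at this
    have h1 : insert t S1 ∪ S2 = insert t (S1 ∪ S2) := by
      ext x; simp only [Set.mem_union, Set.mem_insert_iff]; tauto
    rw [h1] at this
    refine this.trans (mul_le_mul_of_nonneg_left (hanti ?_) (pr_nonneg hp _ _))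
    exact Set.inter_subset_inter_left _ (Set.subset_insert _ _)
  · have := ih S1 (insert t S2) T1 T2 a v
    unfold Claim at this
    have h1 : S1 ∪ insert t S2 = insert t (S1 ∪ S2) := by
      ext x; simp only [Set.mem_union, Set.mem_insert_iff]; tauto
    rw [h1] at this
    refine this.trans (mul_le_mul_of_nonneg_left (hanti ?_) (pr_nonneg hp _ _))
    exact Set.inter_subset_inter_right _ (Set.subset_insert _ _)

theorem sep_of_no_edge {w : Set (Sym2 V)} {S T : Set V} (h : ∀ s ∈ S, ∀ t, s(s, t) ∉ w)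
    (hd : ∀ x, x ∈ S → x ∉ T) : Sep w S T := by
  intro t ht hf
  exact hd t ((from_iff_of_no_edge h).1 hf) ht

theorem claim_all (hp : ∀ e, 0 ≤ p e ∧ p e ≤ 1) (F : Finset (Sym2 V)) :
    ∀ (S1 S2 T1 T2 : Set V) (a v : V), Claim p F S1 S2 T1 T2 a v := by
  induction F using Finset.strongInduction with
  | H F ih =>
    intro S1 S2 T1 T2 a v
    by_cases h : ∃ s ∈ S1 ∩ S2, ∃ t, s(s, t) ∈ F
    · obtain ⟨s, hs, t, he⟩ := h
      have hF : F = insert s(s, t) (F.erase s(s, t)) := (Finset.insert_erase he).symm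
      rw [hF]
      exact claim_step hp hs (Finset.notMem_erase _ _) (ih _ (Finset.erase_ssubset he))
    by_cases h' : ∃ s ∈ T1 ∩ T2, ∃ t, s(s, t) ∈ F
    · obtain ⟨s, hs, t, he⟩ := h'
      have hF : F = insert s(s, t) (F.erase s(s, t)) := (Finset.insert_erase he).symm
      rw [hF]
      exact (claim_step hp hs (Finset.notMem_erase _ _) (ih _ (Finset.erase_ssubset he))).swap
    push Not at h h'
    unfold Claim
    have hS : ∀ w : Finset (Sym2 V), w ⊆ F → ∀ s ∈ S1 ∩ S2, ∀ t, s(s, t) ∉ (w : Set (Sym2 V)) :=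
      fun w hw s hs t ht => h s hs t (hw ht)
    have hT : ∀ w : Finset (Sym2 V), w ⊆ F → ∀ s ∈ T1 ∩ T2, ∀ t, s(s, t) ∉ (w : Set (Sym2 V)) :=
      fun w hw s hs t ht => h' s hs t (hw ht)
    have hnn : 0 ≤ Pr p F (E3 (S1 ∪ S2) (T1 ∩ T2) a) * Pr p F (E3 (T1 ∪ T2) (S1 ∩ S2) v) :=
      mul_nonneg (pr_nonneg hp _ _) (pr_nonneg hp _ _)
    -- separation facts
    by_cases hA : ∃ x, x ∈ S1 ∧ x ∈ T1
    · obtain ⟨x, hx1, hx2⟩ := hA
      have r : Pr p F (E1 S1 T1 a v) = 0 :=
        pr_false F fun w _ hw => hw.2.2 x hx2 ⟨x, hx1, Cn.refl _ _⟩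
      rw [r, zero_mul]
      exact hnn
    by_cases hB : ∃ x, x ∈ S2 ∧ x ∈ T2
    · obtain ⟨x, hx1, hx2⟩ := hB
      have r : Pr p F (E2 S2 T2) = 0 :=
        pr_false F fun w _ hw => hw x hx2 ⟨x, hx1, Cn.refl _ _⟩
      rw [r, mul_zero]
      exact hnn
    push Not at hA hB
    have r3 : Pr p F (E3 (S1 ∪ S2) (T1 ∩ T2) a) =
        Pr p F (fun w => From (w : Set (Sym2 V)) (S1 ∪ S2) a) := by
      refine pr_congr p fun w hw => ⟨fun h => h.1, fun h => ⟨h, Sep.symm ?_⟩⟩
      refine sep_of_no_edge (hT w hw) ?_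
      rintro x ⟨hx1, hx2⟩ (hx | hx)
      · exact hA x hx hx1
      · exact hB x hx hx2
    have r4 : Pr p F (E3 (T1 ∪ T2) (S1 ∩ S2) v) =
        Pr p F (fun w => From (w : Set (Sym2 V)) (T1 ∪ T2) v) := by
      refine pr_congr p fun w hw => ⟨fun h => h.1, fun h => ⟨h, Sep.symm ?_⟩⟩
      refine sep_of_no_edge (hS w hw) ?_
      rintro x ⟨hx1, hx2⟩ (hx | hx)
      · exact hA x hx1 hx
      · exact hB x hx2 hx
    rw [r3, r4]
    calc Pr p F (E1 S1 T1 a v) * Pr p F (E2 S2 T2) ≤ Pr p F (E1 S1 T1 a v) * 1 :=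
          mul_le_mul_of_nonneg_left (pr_le_one hp _ _) (pr_nonneg hp _ _)
      _ = Pr p F (E1 S1 T1 a v) := mul_one _
      _ ≤ Pr p F (fun w => From (w : Set (Sym2 V)) S1 a) *
            Pr p F (fun w => From (w : Set (Sym2 V)) T1 v) := pr_disj hp F _ _ _ _
      _ ≤ _ := mul_le_mul (pr_mono hp fun w _ hw => hw.mono Set.subset_union_left)
            (pr_mono hp fun w _ hw => hw.mono Set.subset_union_left) (pr_nonneg hp _ _)
            (pr_nonneg hp _ _)

theorem from_singleton {w : Set (Sym2 V)} {x y : V} : From w {x} y ↔ Cn w x y := by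
  simp [From]

theorem sep_singleton {w : Set (Sym2 V)} {x y : V} : Sep w {x} {y} ↔ ¬ Cn w x y := by
  simp [Sep, From]

/-- The van den Berg-Haggstrom-Kahn inequality: given `b ≁ c`, the events `a ~ b` and `v ~ c`
are negatively correlated. -/
theorem bhk (hp : ∀ e, 0 ≤ p e ∧ p e ≤ 1) (F : Finset (Sym2 V)) (a b c v : V) :
    Pr p F (fun w => Cn (w : Set (Sym2 V)) b a ∧ Cn (w : Set (Sym2 V)) c v ∧
        ¬ Cn (w : Set (Sym2 V)) b c) * Pr p F (fun w => ¬ Cn (w : Set (Sym2 V)) b c) ≤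
      Pr p F (fun w => Cn (w : Set (Sym2 V)) b a ∧ ¬ Cn (w : Set (Sym2 V)) b c) *
        Pr p F (fun w => Cn (w : Set (Sym2 V)) c v ∧ ¬ Cn (w : Set (Sym2 V)) b c) := by
  have h := claim_all hp F {b} {b} {c} {c} a v
  unfold Claim at h
  rw [Set.union_self, Set.inter_self, Set.union_self, Set.inter_self] at h
  have r1 : Pr p F (E1 {b} {c} a v) = Pr p F (fun w => Cn (w : Set (Sym2 V)) b a ∧
      Cn (w : Set (Sym2 V)) c v ∧ ¬ Cn (w : Set (Sym2 V)) b c) :=
    pr_congr p fun w _ => by rw [E1, from_singleton, from_singleton, sep_singleton]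
  have r2 : Pr p F (E2 {b} {c}) = Pr p F (fun w => ¬ Cn (w : Set (Sym2 V)) b c) :=
    pr_congr p fun w _ => by rw [E2, sep_singleton]
  have r3 : Pr p F (E3 {b} {c} a) = Pr p F (fun w => Cn (w : Set (Sym2 V)) b a ∧
      ¬ Cn (w : Set (Sym2 V)) b c) :=
    pr_congr p fun w _ => by rw [E3, from_singleton, sep_singleton]
  have r4 : Pr p F (E3 {c} {b} v) = Pr p F (fun w => Cn (w : Set (Sym2 V)) c v ∧
      ¬ Cn (w : Set (Sym2 V)) b c) :=
    pr_congr p fun w _ => by rw [E3, from_singleton, sep_singleton, Cn.comm (x := c) (y := b)]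
  rw [r1, r2, r3, r4] at h
  exact h

/-- Given that `v` is separated from `b` and `c`, the connection `b ~ c` is less likely. -/
theorem pr_star (hp : ∀ e, 0 ≤ p e ∧ p e ≤ 1) (b c a : V) (F : Finset (Sym2 V)) :
    ∀ (S : Set V), Pr p F (fun w => From (w : Set (Sym2 V)) S a ∧ Sep (w : Set (Sym2 V)) S {b, c} ∧
        Cn (w : Set (Sym2 V)) b c) ≤
      Pr p F (fun w => From (w : Set (Sym2 V)) S a ∧ Sep (w : Set (Sym2 V)) S {b, c}) *
        Pr p F (fun w => Cn (w : Set (Sym2 V)) b c) := by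
  induction F using Finset.strongInduction with
  | H F ih =>
    intro S
    by_cases h : ∃ s ∈ S, ∃ t, s(s, t) ∈ F
    · obtain ⟨s, hs, t, he⟩ := h
      set e := s(s, t) with hedef
      have hF : F = insert e (F.erase e) := (Finset.insert_erase he).symm
      have hne : e ∉ F.erase e := Finset.notMem_erase _ _
      have hlt : F.erase e ⊂ F := Finset.erase_ssubset he
      have ih1 := ih _ hlt (insert t S)
      have ih0 := ih _ hlt S
      rw [hF, pr_insert p hne, pr_insert p hne (fun w => From (w : Set (Sym2 V)) S a ∧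
        Sep (w : Set (Sym2 V)) S {b, c})]
      have r1 : Pr p (F.erase e) (fun w => From ((insert e w : Finset (Sym2 V)) : Set (Sym2 V)) S a ∧
          Sep ((insert e w : Finset (Sym2 V)) : Set (Sym2 V)) S {b, c} ∧
          Cn ((insert e w : Finset (Sym2 V)) : Set (Sym2 V)) b c) =
          Pr p (F.erase e) (fun w => From (w : Set (Sym2 V)) (insert t S) a ∧
          Sep (w : Set (Sym2 V)) (insert t S) {b, c} ∧ Cn (w : Set (Sym2 V)) b c) := by
        refine pr_congr p fun w _ => ?_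
        rw [Finset.coe_insert, from_insert hs, sep_insert hs]
        constructor
        · rintro ⟨h1, h2, h3⟩
          refine ⟨h1, h2, ?_⟩
          have h4 : From (insert s(s, t) (w : Set (Sym2 V))) ({b, c} : Set V) c → True := fun _ => trivial
          rcases cn_insert.1 h3 with h | ⟨h5, h6⟩ | ⟨h5, h6⟩
          · exact h
          · exact absurd ⟨s, Set.mem_insert_of_mem _ hs, h5.symm⟩ (h2 b (by simp))
          · exact absurd ⟨t, Set.mem_insert _ _, h5.symm⟩ (h2 b (by simp))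
        · rintro ⟨h1, h2, h3⟩
          exact ⟨h1, h2, h3.mono (Set.subset_insert _ _)⟩
      have r2 : Pr p (F.erase e) (fun w => From ((insert e w : Finset (Sym2 V)) : Set (Sym2 V)) S a ∧
          Sep ((insert e w : Finset (Sym2 V)) : Set (Sym2 V)) S {b, c}) =
          Pr p (F.erase e) (fun w => From (w : Set (Sym2 V)) (insert t S) a ∧
          Sep (w : Set (Sym2 V)) (insert t S) {b, c}) := by
        refine pr_congr p fun w _ => ?_
        rw [Finset.coe_insert, from_insert hs, sep_insert hs]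
      rw [r1, r2]
      have hm : Pr p (F.erase e) (fun w => Cn (w : Set (Sym2 V)) b c) ≤
          Pr p (insert e (F.erase e)) (fun w => Cn (w : Set (Sym2 V)) b c) :=
        pr_mono_insert hp hne fun w hw => hw.mono (by simp)
      have hpe := hp e
      have hq : 0 ≤ 1 - p e := by linarith [hpe.2]
      have n1 : 0 ≤ Pr p (F.erase e) (fun w => From (w : Set (Sym2 V)) (insert t S) a ∧
          Sep (w : Set (Sym2 V)) (insert t S) {b, c}) := pr_nonneg hp _ _
      have n0 : 0 ≤ Pr p (F.erase e) (fun w => From (w : Set (Sym2 V)) S a ∧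
          Sep (w : Set (Sym2 V)) S {b, c}) := pr_nonneg hp _ _
      refine (add_le_add (mul_le_mul_of_nonneg_left ih1 hpe.1)
        (mul_le_mul_of_nonneg_left ih0 hq)).trans ?_
      refine le_trans (le_of_eq ?_) (mul_le_mul_of_nonneg_left hm
            (add_nonneg (mul_nonneg hpe.1 n1) (mul_nonneg hq n0)))
      ring
    · push Not at h
      have hfrom : ∀ w : Finset (Sym2 V), w ⊆ F → ∀ x, From (w : Set (Sym2 V)) S x ↔ x ∈ S :=
        fun w hw x => from_iff_of_no_edge fun s hs t ht => h s hs t (hw ht)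
      by_cases ha : a ∈ S ∧ b ∉ S ∧ c ∉ S
      · have r : Pr p F (fun w => From (w : Set (Sym2 V)) S a ∧
            Sep (w : Set (Sym2 V)) S {b, c}) = 1 := by
          refine pr_true F fun w hw => ⟨(hfrom w hw a).2 ha.1, ?_⟩
          rintro x (rfl | rfl) hx
          · exact ha.2.1 ((hfrom w hw _).1 hx)
          · exact ha.2.2 ((hfrom w hw _).1 hx)
        rw [r, one_mul]
        exact pr_mono hp fun w _ hw => hw.2.2
      · have r : Pr p F (fun w => From (w : Set (Sym2 V)) S a ∧ Sep (w : Set (Sym2 V)) S {b, c} ∧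
            Cn (w : Set (Sym2 V)) b c) = 0 := by
          refine pr_false F fun w hw h1 => ha ⟨(hfrom w hw a).1 h1.1, fun hb => ?_, fun hc => ?_⟩
          · exact h1.2.1 b (by simp) ((hfrom w hw b).2 hb)
          · exact h1.2.1 c (by simp) ((hfrom w hw c).2 hc)
        rw [r]
        exact mul_nonneg (pr_nonneg hp _ _) (pr_nonneg hp _ _)

theorem star (hp : ∀ e, 0 ≤ p e ∧ p e ≤ 1) (F : Finset (Sym2 V)) (a b c v : V) :
    Pr p F (fun w => Cn (w : Set (Sym2 V)) v a ∧ ¬ Cn (w : Set (Sym2 V)) v b ∧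
        ¬ Cn (w : Set (Sym2 V)) v c ∧ Cn (w : Set (Sym2 V)) b c) ≤
      Pr p F (fun w => Cn (w : Set (Sym2 V)) v a ∧ ¬ Cn (w : Set (Sym2 V)) v b ∧
        ¬ Cn (w : Set (Sym2 V)) v c) * Pr p F (fun w => Cn (w : Set (Sym2 V)) b c) := by
  have h := pr_star hp b c a F {v}
  have hs : ∀ w : Finset (Sym2 V), Sep (w : Set (Sym2 V)) {v} {b, c} ↔
      ¬ Cn (w : Set (Sym2 V)) v b ∧ ¬ Cn (w : Set (Sym2 V)) v c := by
    intro w
    simp [Sep, From]
  have r1 : Pr p F (fun w => From (w : Set (Sym2 V)) {v} a ∧ Sep (w : Set (Sym2 V)) {v} {b, c} ∧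
        Cn (w : Set (Sym2 V)) b c) = Pr p F (fun w => Cn (w : Set (Sym2 V)) v a ∧
        ¬ Cn (w : Set (Sym2 V)) v b ∧ ¬ Cn (w : Set (Sym2 V)) v c ∧ Cn (w : Set (Sym2 V)) b c) :=
    pr_congr p fun w _ => by rw [from_singleton, hs]; tauto
  have r2 : Pr p F (fun w => From (w : Set (Sym2 V)) {v} a ∧ Sep (w : Set (Sym2 V)) {v} {b, c}) =
      Pr p F (fun w => Cn (w : Set (Sym2 V)) v a ∧
        ¬ Cn (w : Set (Sym2 V)) v b ∧ ¬ Cn (w : Set (Sym2 V)) v c) :=
    pr_congr p fun w _ => by rw [from_singleton, hs]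
  rw [r1, r2] at h
  exact h

end

end Pool.Agent.MP_e813d2_pr
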