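import Mathlib

set_option autoImplicit false

namespace Pool.Agent.MP_e813d2_pr

/-- The potential function. -/
noncomputable def Phi (y z : ℝ) : ℝ := 22 * (√z + √(z * y))

theorem bellman_core {A B c y : ℝ} (hB : 0 ≤ B) (hc0 : 0 ≤ c) (hc1 : c ≤ 1)
    (hBA : B * c ≤ A) (hy0 : 0 ≤ y) (hy1 : y ≤ 1) :
    (1 - c ^ 2) * ((1 - c ^ 2) * B ^ 2 + (A ^ 2 - B ^ 2) * (1 - y)) ≤
      11 * ((A - B) ^ 2 + (A - B * c) ^ 2) := by
  set D := A - B * c with hD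
  have hD0 : 0 ≤ D := by linarith
  set s := (1 - c) * B with hs
  have hs0 : 0 ≤ s := mul_nonneg (by linarith) hB
  have hAB : A - B = D - s := by rw [hD, hs]; ring
  have hA : A = D + B * c := by rw [hD]; ring
  -- value at y = 1
  have h1 : (1 - c ^ 2) * ((1 - c ^ 2) * B ^ 2) ≤ 11 * ((A - B) ^ 2 + D ^ 2) := by
    have e : (1 - c ^ 2) * ((1 - c ^ 2) * B ^ 2) = (1 + c) ^ 2 * s ^ 2 := by rw [hs]; ring
    rw [e, hAB]
    have hc2 : (1 + c) ^ 2 ≤ 4 := by nlinarith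
    have := mul_le_mul_of_nonneg_right hc2 (sq_nonneg s)
    nlinarith [sq_nonneg (D - s / 2), sq_nonneg s]
  -- value at y = 0
  have h0 : (1 - c ^ 2) * ((1 - c ^ 2) * B ^ 2 + (A ^ 2 - B ^ 2)) ≤
      11 * ((A - B) ^ 2 + D ^ 2) := by
    have e : (1 - c ^ 2) * ((1 - c ^ 2) * B ^ 2 + (A ^ 2 - B ^ 2)) =
        (1 - c ^ 2) * D ^ 2 + 2 * (c * (1 + c)) * (s * D) := by
      rw [hs, hA]; ring
    rw [e, hAB]
    have hc2 : 1 - c ^ 2 ≤ 1 := by nlinarith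
    have hc3 : c * (1 + c) ≤ 2 := by nlinarith
    have t1 := mul_le_mul_of_nonneg_right hc2 (sq_nonneg D)
    have t2 := mul_le_mul_of_nonneg_right hc3 (mul_nonneg hs0 hD0)
    nlinarith [sq_nonneg (D - 13 / 21 * s), sq_nonneg s]
  have e : (1 - c ^ 2) * ((1 - c ^ 2) * B ^ 2 + (A ^ 2 - B ^ 2) * (1 - y)) =
      y * ((1 - c ^ 2) * ((1 - c ^ 2) * B ^ 2)) +
      (1 - y) * ((1 - c ^ 2) * ((1 - c ^ 2) * B ^ 2 + (A ^ 2 - B ^ 2))) := by ring
  rw [e]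
  have t1 := mul_le_mul_of_nonneg_left h1 hy0
  have t2 := mul_le_mul_of_nonneg_left h0 (by linarith : 0 ≤ 1 - y)
  linarith

theorem gap {M T K L : ℝ} (hL : 0 < L) (hK : 0 ≤ K) (hM0 : 0 ≤ M) (hT0 : 0 ≤ T) (hML : M ≤ L)
    (h : M ^ 2 - T ^ 2 = L * K) : K ≤ 2 * (M - T) := by
  have hLK : 0 ≤ L * K := mul_nonneg hL.le hK
  have hTM : T ≤ M := (sq_le_sq₀ hT0 hM0).1 (by linarith)
  have h1 : (M - T) * (M + T) ≤ (M - T) * (2 * L) :=
    mul_le_mul_of_nonneg_left (by linarith) (by linarith)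
  have h2 : L * K ≤ L * (2 * (M - T)) := by
    rw [← h]
    calc M ^ 2 - T ^ 2 = (M - T) * (M + T) := by ring
      _ ≤ (M - T) * (2 * L) := h1
      _ = L * (2 * (M - T)) := by ring
  exact le_of_mul_le_mul_left h2 hL

theorem bellman {p θ y z z' : ℝ} (hp0 : 0 ≤ p) (hp1 : p ≤ 1) (hθ0 : 0 ≤ θ) (hθ1 : θ ≤ 1)
    (hz : 0 ≤ z) (hzy : z ≤ y) (hy1 : y ≤ 1) (hz1 : z * (1 - θ) ≤ z')
    (hz2 : z' ≤ y * (1 - θ)) :
    p * Phi (y * (1 - θ)) z' + (1 - p) * Phi y z +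
        p * (1 - p) * (θ * (θ * z + (z' - z) * (1 - y))) ≤
      Phi (y * (1 - p * θ)) (p * z' + (1 - p) * z) := by
  have hy0 : 0 ≤ y := hz.trans hzy
  have hq0 : 0 ≤ 1 - p := by linarith
  have hz'0 : 0 ≤ z' := (mul_nonneg hz (by linarith)).trans hz1
  set A := √z' with hA
  set B := √z with hB
  set c := √(1 - θ) with hc
  set s := √y with hs
  have hA0 : 0 ≤ A := Real.sqrt_nonneg _
  have hB0 : 0 ≤ B := Real.sqrt_nonneg _
  have hc0 : 0 ≤ c := Real.sqrt_nonneg _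
  have hs0 : 0 ≤ s := Real.sqrt_nonneg _
  have hA2 : A ^ 2 = z' := Real.sq_sqrt hz'0
  have hB2 : B ^ 2 = z := Real.sq_sqrt hz
  have hc2 : c ^ 2 = 1 - θ := Real.sq_sqrt (by linarith)
  have hs2 : s ^ 2 = y := Real.sq_sqrt hy0
  have hc1 : c ≤ 1 := by nlinarith
  have hs1 : s ≤ 1 := by nlinarith
  have hBA : B * c ≤ A := by
    have : (B * c) ^ 2 ≤ A ^ 2 := by rw [mul_pow, hB2, hc2, hA2]; exact hz1
    exact (sq_le_sq₀ (mul_nonneg hB0 hc0) hA0).1 this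
  have hAs : A ≤ s * c := by
    have : A ^ 2 ≤ (s * c) ^ 2 := by rw [mul_pow, hs2, hc2, hA2]; exact hz2
    exact (sq_le_sq₀ hA0 (mul_nonneg hs0 hc0)).1 this
  have hBs : B ≤ s := Real.sqrt_le_sqrt hzy
  have r1 : √(z' * (y * (1 - θ))) = A * (s * c) := by
    rw [← hA2, ← hs2, ← hc2, show A ^ 2 * (s ^ 2 * c ^ 2) = (A * (s * c)) ^ 2 by ring]
    exact Real.sqrt_sq (mul_nonneg hA0 (mul_nonneg hs0 hc0))
  have r2 : √(z * y) = B * s := by
    rw [← hB2, ← hs2, ← mul_pow]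
    exact Real.sqrt_sq (mul_nonneg hB0 hs0)
  set M := √(p * z' + (1 - p) * z) with hM
  set N := √(y * (1 - p * θ)) with hN
  have hM0 : 0 ≤ M := Real.sqrt_nonneg _
  have hN0 : 0 ≤ N := Real.sqrt_nonneg _
  have hpθ : 0 ≤ 1 - p * θ := by nlinarith
  have hM2 : M ^ 2 = p * A ^ 2 + (1 - p) * B ^ 2 := by
    rw [hM, Real.sq_sqrt (add_nonneg (mul_nonneg hp0 hz'0) (mul_nonneg hq0 hz)), hA2, hB2]
  have hN2 : N ^ 2 = s ^ 2 * (p * c ^ 2 + (1 - p)) := by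
    rw [hN, Real.sq_sqrt (mul_nonneg hy0 hpθ), hs2, hc2]; ring
  have r3 : √((p * z' + (1 - p) * z) * (y * (1 - p * θ))) = M * N :=
    Real.sqrt_mul (add_nonneg (mul_nonneg hp0 hz'0) (mul_nonneg hq0 hz)) _
  have hA1 : A ≤ 1 := hAs.trans (by nlinarith)
  have hB1 : B ≤ 1 := hBs.trans hs1
  have hpq : 0 ≤ p * (1 - p) := mul_nonneg hp0 hq0
  have hA21 : A ^ 2 ≤ 1 := pow_le_one₀ hA0 hA1
  have hB21 : B ^ 2 ≤ 1 := pow_le_one₀ hB0 hB1
  -- first gap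
  have g1 : p * (1 - p) * (A - B) ^ 2 ≤ 2 * (M - (p * A + (1 - p) * B)) := by
    have hM1 : M ≤ 1 := by
      have h1 : M ^ 2 ≤ 1 ^ 2 := by
        rw [hM2]
        have t1 := mul_le_mul_of_nonneg_left hA21 hp0
        have t2 := mul_le_mul_of_nonneg_left hB21 hq0
        linarith
      exact (sq_le_sq₀ hM0 zero_le_one).1 h1
    refine gap zero_lt_one (mul_nonneg hpq (sq_nonneg _)) hM0
      (add_nonneg (mul_nonneg hp0 hA0) (mul_nonneg hq0 hB0)) hM1 ?_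
    rw [hM2]; ring
  -- second gap
  have g2 : p * (1 - p) * (A - B * c) ^ 2 ≤
      2 * (M * N - (p * (A * (s * c)) + (1 - p) * (B * s))) := by
    rcases hs0.eq_or_lt with hs00 | hspos
    · have hs' : s = 0 := hs00.symm
      have hA' : A = 0 := le_antisymm (by rw [hs'] at hAs; linarith) hA0
      have hB' : B = 0 := le_antisymm (by rw [hs'] at hBs; exact hBs) hB0
      have hMN0 := mul_nonneg hM0 hN0
      have e1 : p * (1 - p) * (A - B * c) ^ 2 = 0 := by rw [hA', hB']; ring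
      have e2 : p * (A * (s * c)) + (1 - p) * (B * s) = 0 := by rw [hA', hB']; ring
      rw [e1, e2]
      linarith
    · have a1 : A ^ 2 ≤ s ^ 2 * c ^ 2 := by
        rw [← mul_pow]; exact (sq_le_sq₀ hA0 (mul_nonneg hs0 hc0)).2 hAs
      have b1 : B ^ 2 ≤ s ^ 2 := (sq_le_sq₀ hB0 hs0).2 hBs
      have hMleN : M ≤ N := by
        have h1 : M ^ 2 ≤ N ^ 2 := by
          rw [hM2, hN2]
          have t1 := mul_le_mul_of_nonneg_left a1 hp0
          have t2 := mul_le_mul_of_nonneg_left b1 hq0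
          linarith
        exact (sq_le_sq₀ hM0 hN0).1 h1
      have hN2s : N ^ 2 ≤ s ^ 2 := by
        rw [hN2]
        have h1 : p * c ^ 2 + (1 - p) ≤ 1 := by
          have := mul_le_mul_of_nonneg_left (pow_le_one₀ hc0 hc1 : c ^ 2 ≤ 1) hp0
          linarith
        have := mul_le_mul_of_nonneg_left h1 (sq_nonneg s)
        linarith
      have hMNs : M * N ≤ s ^ 2 := by
        have := mul_le_mul_of_nonneg_right hMleN hN0
        have e : N * N = N ^ 2 := by ring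
        linarith
      refine gap (pow_pos hspos 2) (mul_nonneg hpq (sq_nonneg _)) (mul_nonneg hM0 hN0)
        (add_nonneg (mul_nonneg hp0 (mul_nonneg hA0 (mul_nonneg hs0 hc0)))
        (mul_nonneg hq0 (mul_nonneg hB0 hs0))) hMNs ?_
      rw [mul_pow, hM2, hN2]; ring
  have core := bellman_core hB0 hc0 hc1 hBA hy0 hy1
  have core' := mul_le_mul_of_nonneg_left core hpq
  have hθc : θ = 1 - c ^ 2 := by rw [hc2]; ring
  have eθ : θ * (θ * z + (z' - z) * (1 - y)) =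
      (1 - c ^ 2) * ((1 - c ^ 2) * B ^ 2 + (A ^ 2 - B ^ 2) * (1 - y)) := by
    rw [← hθc, hA2, hB2]
  unfold Phi
  rw [r1, r2, r3, eθ]
  linarith

end Pool.Agent.MP_e813d2_pr
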