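import Mathlib

set_option autoImplicit false

open MeasureTheory ProbabilityTheory

namespace Pool.Agent.MP_e813d2_pr

/-- Bernoulli bond percolation on `G` with edge probabilities `p`: the product measure on
`{0,1}^E`, where the edge `e` is open (`true`) with probability `p e`. -/
noncomputable def perc {V : Type*} (G : SimpleGraph V) (p : G.edgeSet → unitInterval) :
    Measure (G.edgeSet → Bool) :=
  Measure.infinitePi fun e => bernoulliMeasure true false (p e)

/-- The subgraph of `G` formed by the open edges of the configuration `ω`. -/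
def openGraph {V : Type*} (G : SimpleGraph V) (ω : G.edgeSet → Bool) : SimpleGraph V where
  Adj x y := ∃ h : G.Adj x y, ω ⟨s(x, y), h⟩ = true
  symm := ⟨fun x y ⟨h, hω⟩ => ⟨h.symm, by
    have : (⟨s(y, x), h.symm⟩ : G.edgeSet) = ⟨s(x, y), h⟩ := Subtype.ext Sym2.eq_swap
    rw [this]; exact hω⟩⟩
  loopless := ⟨fun x ⟨h, _⟩ => G.loopless.irrefl x h⟩

/-- `x` and `y` lie in one cluster of the configuration `ω`. -/
def SameCluster {V : Type*} (G : SimpleGraph V) (ω : G.edgeSet → Bool) (x y : V) : Prop :=
  (openGraph G ω).Reachable x y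

/-- The event `abc`: `a`, `b`, `c` lie in one cluster. -/
def evABC {V : Type*} (G : SimpleGraph V) (a b c : V) : Set (G.edgeSet → Bool) :=
  {ω | SameCluster G ω a b ∧ SameCluster G ω a c ∧ SameCluster G ω b c}

/-- The event `x y | z`: `x` and `y` lie in one cluster, which does not contain `z`. -/
def evPair {V : Type*} (G : SimpleGraph V) (x y z : V) : Set (G.edgeSet → Bool) :=
  {ω | SameCluster G ω x y ∧ ¬ SameCluster G ω x z ∧ ¬ SameCluster G ω y z}

/-- The event `a | b | c`: the three vertices lie in three different clusters. -/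
def evSep {V : Type*} (G : SimpleGraph V) (a b c : V) : Set (G.edgeSet → Bool) :=
  {ω | ¬ SameCluster G ω a b ∧ ¬ SameCluster G ω a c ∧ ¬ SameCluster G ω b c}

end Pool.Agent.MP_e813d2_pr
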