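import Mathlib
import Pool.Agent.MP_e813d2_pr.Finite
import Pool.Agent.MP_e813d2_pr.BHK
import Pool.Agent.MP_e813d2_pr.Bellman

set_option autoImplicit false
set_option linter.unusedSectionVars false
set_option linter.unusedVariables false

open Finset

namespace Pool.Agent.MP_e813d2_pr

section
variable {V : Type*} [DecidableEq V] {p : Sym2 V → ℝ}

/-- Probability of `A` when the edges of `O` are open and those of `F` are open with
probability `p`. -/
noncomputable def PO (p : Sym2 V → ℝ) (O F : Finset (Sym2 V)) (A : Set (Sym2 V) → Prop) : ℝ :=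
  Pr p F (fun w => A ((O ∪ w : Finset (Sym2 V)) : Set (Sym2 V)))

theorem po_insert {O F : Finset (Sym2 V)} {e : Sym2 V} (he : e ∉ F) (A : Set (Sym2 V) → Prop) :
    PO p O (insert e F) A = p e * PO p O F (fun w => A (insert e w)) + (1 - p e) * PO p O F A := by
  unfold PO
  rw [pr_insert p he]
  congr 2
  refine pr_congr p fun w _ => ?_
  show A ((O ∪ insert e w : Finset (Sym2 V)) : Set (Sym2 V)) ↔
    A (insert e ((O ∪ w : Finset (Sym2 V)) : Set (Sym2 V)))
  rw [← Finset.coe_insert, Finset.union_insert]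

theorem po_insert_left {O F : Finset (Sym2 V)} {e : Sym2 V} (A : Set (Sym2 V) → Prop) :
    PO p (insert e O) F A = PO p O F (fun w => A (insert e w)) := by
  unfold PO
  refine pr_congr p fun w _ => ?_
  show A ((insert e O ∪ w : Finset (Sym2 V)) : Set (Sym2 V)) ↔
    A (insert e ((O ∪ w : Finset (Sym2 V)) : Set (Sym2 V)))
  rw [← Finset.coe_insert, Finset.insert_union]

theorem po_congr {O F : Finset (Sym2 V)} {A B : Set (Sym2 V) → Prop}
    (h : ∀ w : Set (Sym2 V), (O : Set (Sym2 V)) ⊆ w → w ⊆ (O : Set (Sym2 V)) ∪ F → (A w ↔ B w)) :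
    PO p O F A = PO p O F B :=
  pr_congr p fun w hw => h _ (by simp) (by
    rw [Finset.coe_union]; exact Set.union_subset_union_right _ (by exact_mod_cast hw))

theorem po_mono (hp : ∀ e, 0 ≤ p e ∧ p e ≤ 1) {O F : Finset (Sym2 V)}
    {A B : Set (Sym2 V) → Prop} (h : ∀ w, A w → B w) : PO p O F A ≤ PO p O F B :=
  pr_mono hp fun w _ => h _

theorem po_nonneg (hp : ∀ e, 0 ≤ p e ∧ p e ≤ 1) (O F : Finset (Sym2 V))
    (A : Set (Sym2 V) → Prop) : 0 ≤ PO p O F A := pr_nonneg hp _ _

theorem po_le_one (hp : ∀ e, 0 ≤ p e ∧ p e ≤ 1) (O F : Finset (Sym2 V))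
    (A : Set (Sym2 V) → Prop) : PO p O F A ≤ 1 := pr_le_one hp _ _

/-- Additivity over disjoint events. -/
theorem po_add {O F : Finset (Sym2 V)} {A B C : Set (Sym2 V) → Prop}
    (h : ∀ w : Set (Sym2 V), (O : Set (Sym2 V)) ⊆ w → ind (A w) = ind (B w) + ind (C w)) :
    PO p O F A = PO p O F B + PO p O F C := by
  unfold PO Pr
  rw [← ex_add]
  exact ex_congr p fun w _ => h _ (by simp)

theorem ind_add {A B C : Prop} (h1 : A ↔ B ∨ C) (h2 : ¬ (B ∧ C)) : ind A = ind B + ind C := by
  by_cases hB : B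
  · have hC : ¬ C := fun hC => h2 ⟨hB, hC⟩
    rw [ind_true (h1.2 (Or.inl hB)), ind_true hB, ind_false hC, add_zero]
  · by_cases hC : C
    · rw [ind_true (h1.2 (Or.inr hC)), ind_false hB, ind_true hC, zero_add]
    · rw [ind_false hB, ind_false hC, ind_false (fun hA => by rcases h1.1 hA with h | h <;> contradiction),
        add_zero]

theorem po_add' {O F : Finset (Sym2 V)} {A B C : Set (Sym2 V) → Prop}
    (h1 : ∀ w : Set (Sym2 V), (O : Set (Sym2 V)) ⊆ w → (A w ↔ B w ∨ C w))
    (h2 : ∀ w : Set (Sym2 V), (O : Set (Sym2 V)) ⊆ w → ¬ (B w ∧ C w)) :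
    PO p O F A = PO p O F B + PO p O F C :=
  po_add fun w hw => ind_add (h1 w hw) (h2 w hw)

/-- The probability vector with the edges of `O` open. -/
noncomputable def pOne (p : Sym2 V → ℝ) (O : Finset (Sym2 V)) (e : Sym2 V) : ℝ :=
  if e ∈ O then 1 else p e

theorem pOne_mem (hp : ∀ e, 0 ≤ p e ∧ p e ≤ 1) (O : Finset (Sym2 V)) (e : Sym2 V) :
    0 ≤ pOne p O e ∧ pOne p O e ≤ 1 := by
  unfold pOne
  split_ifs
  · exact ⟨zero_le_one, le_rfl⟩
  · exact hp e

theorem po_eq {O F : Finset (Sym2 V)} (hd : Disjoint O F) (A : Set (Sym2 V) → Prop) :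
    PO p O F A = Pr (pOne p O) (O ∪ F) (fun w => A (w : Set (Sym2 V))) := by
  rw [pr_union_one (fun e he => by simp [pOne, he]) hd]
  unfold PO
  refine pr_congr_prob (fun e he => ?_) _
  have : e ∉ O := fun h => Finset.disjoint_left.1 hd h he
  simp [pOne, this]

theorem bhk_po (hp : ∀ e, 0 ≤ p e ∧ p e ≤ 1) {O F : Finset (Sym2 V)} (hd : Disjoint O F)
    (a b c v : V) :
    PO p O F (fun w => Cn w b a ∧ Cn w c v ∧ ¬ Cn w b c) * PO p O F (fun w => ¬ Cn w b c) ≤
      PO p O F (fun w => Cn w b a ∧ ¬ Cn w b c) * PO p O F (fun w => Cn w c v ∧ ¬ Cn w b c) := by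
  rw [po_eq hd, po_eq hd, po_eq hd, po_eq hd]
  exact bhk (pOne_mem hp O) _ a b c v

theorem star_po (hp : ∀ e, 0 ≤ p e ∧ p e ≤ 1) {O F : Finset (Sym2 V)} (hd : Disjoint O F)
    (a b c v : V) :
    PO p O F (fun w => Cn w v a ∧ ¬ Cn w v b ∧ ¬ Cn w v c ∧ Cn w b c) ≤
      PO p O F (fun w => Cn w v a ∧ ¬ Cn w v b ∧ ¬ Cn w v c) * PO p O F (fun w => Cn w b c) := by
  rw [po_eq hd, po_eq hd, po_eq hd]
  exact star (pOne_mem hp O) _ a b c v

/-- If no edge of `F` leaves the cluster of `b` in `O`, that cluster is final. -/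
theorem cluster_final {O F : Finset (Sym2 V)} {b : V}
    (h : ∀ u v, Cn (O : Set (Sym2 V)) b u → ¬ Cn (O : Set (Sym2 V)) b v → s(u, v) ∉ F)
    {w : Set (Sym2 V)} (hw : (O : Set (Sym2 V)) ⊆ w) (hw' : w ⊆ (O : Set (Sym2 V)) ∪ F) {x : V} :
    Cn w b x ↔ Cn (O : Set (Sym2 V)) b x := by
  constructor
  · intro hx
    induction hx with
    | refl => exact Cn.refl _ _
    | tail _ hyz ih =>
      rename_i y z _
      by_contra hz
      rcases hw' hyz with h1 | h1
      · exact hz (ih.trans (Cn.single h1))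
      · exact h y z ih hz h1
  · exact fun hx => hx.mono hw

/-- The main inequality for a finite set of edges. -/
theorem main_finite (hp : ∀ e, 0 ≤ p e ∧ p e ≤ 1) (a b c : V) (F : Finset (Sym2 V)) :
    ∀ O : Finset (Sym2 V), Disjoint O F →
      PO p O F (fun w => Cn w a c ∧ Cn w b c) -
        PO p O F (fun w => Cn w a c) * PO p O F (fun w => Cn w b c) ≤
      Phi (1 - PO p O F (fun w => Cn w b c)) (PO p O F (fun w => Cn w a b ∧ ¬ Cn w b c)) := by
  induction F using Finset.strongInduction with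
  | H F ih =>
    intro O hd
    have hPhi : ∀ y z : ℝ, 0 ≤ Phi y z := fun y z => by unfold Phi; positivity
    by_cases h : ∃ u v, Cn (O : Set (Sym2 V)) b u ∧ ¬ Cn (O : Set (Sym2 V)) b v ∧ s(u, v) ∈ F
    · obtain ⟨u, v, hu, hv, he⟩ := h
      set e := s(u, v) with hedef
      have hF : F = insert e (F.erase e) := (Finset.insert_erase he).symm
      have hne : e ∉ F.erase e := Finset.notMem_erase _ _
      have hlt : F.erase e ⊂ F := Finset.erase_ssubset he
      have heO : e ∉ O := fun heO => Finset.disjoint_left.1 hd heO he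
      have hd0 : Disjoint O (F.erase e) := hd.mono_right (Finset.erase_subset _ _)
      have hd1 : Disjoint (insert e O) (F.erase e) := by
        rw [Finset.disjoint_insert_left]
        exact ⟨hne, hd0⟩
      have ih0 := ih _ hlt O hd0
      have ih1 := ih _ hlt (insert e O) hd1
      rw [hF, po_insert hne, po_insert hne, po_insert hne, po_insert hne]
      rw [po_insert_left, po_insert_left, po_insert_left, po_insert_left] at ih1
      generalize F.erase e = F' at *
      -- description of the events after opening `e`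
      have hbu : ∀ w : Set (Sym2 V), (O : Set (Sym2 V)) ⊆ w → Cn w b u := fun w hw => hu.mono hw
      have ebc : ∀ w : Set (Sym2 V), (O : Set (Sym2 V)) ⊆ w →
          (Cn (insert e w) b c ↔ Cn w b c ∨ Cn w v c) := by
        intro w hw
        rw [hedef, cn_insert]
        constructor
        · rintro (h | ⟨-, h⟩ | ⟨-, h⟩)
          · exact Or.inl h
          · exact Or.inr h
          · exact Or.inl ((hbu w hw).trans h)
        · rintro (h | h)
          · exact Or.inl h
          · exact Or.inr (Or.inl ⟨hbu w hw, h⟩)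
      have eac : ∀ w : Set (Sym2 V), (O : Set (Sym2 V)) ⊆ w →
          (Cn (insert e w) a c ↔ Cn w a c ∨ (Cn w a b ∧ Cn w v c) ∨ (Cn w a v ∧ Cn w b c)) := by
        intro w hw
        rw [hedef, cn_insert]
        have hb := hbu w hw
        constructor
        · rintro (h | ⟨h1, h2⟩ | ⟨h1, h2⟩)
          · exact Or.inl h
          · exact Or.inr (Or.inl ⟨h1.trans hb.symm, h2⟩)
          · exact Or.inr (Or.inr ⟨h1, hb.trans h2⟩)
        · rintro (h | ⟨h1, h2⟩ | ⟨h1, h2⟩)
          · exact Or.inl h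
          · exact Or.inr (Or.inl ⟨h1.trans hb, h2⟩)
          · exact Or.inr (Or.inr ⟨h1, hb.symm.trans h2⟩)
      have eab : ∀ w : Set (Sym2 V), (O : Set (Sym2 V)) ⊆ w →
          (Cn (insert e w) a b ↔ Cn w a b ∨ Cn w a v) := by
        intro w hw
        rw [hedef, cn_insert]
        have hb := hbu w hw
        constructor
        · rintro (h | ⟨h1, h2⟩ | ⟨h1, h2⟩)
          · exact Or.inl h
          · exact Or.inl (h1.trans hb.symm)
          · exact Or.inr h1
        · rintro (h | h)
          · exact Or.inl h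
          · exact Or.inr (Or.inr ⟨h, hb.symm⟩)
      -- names for the probabilities
      set Xc := PO p O F' (fun w => Cn w a c) with hXc
      set Yc := PO p O F' (fun w => Cn w b c) with hYc
      set Zc := PO p O F' (fun w => Cn w a b ∧ ¬ Cn w b c) with hZc
      set Wc := PO p O F' (fun w => Cn w a c ∧ Cn w b c) with hWc
      set Xo := PO p O F' (fun w => Cn (insert e w) a c) with hXo
      set Yo := PO p O F' (fun w => Cn (insert e w) b c) with hYo
      set Zo := PO p O F' (fun w => Cn (insert e w) a b ∧ ¬ Cn (insert e w) b c) with hZo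
      set Wo := PO p O F' (fun w => Cn (insert e w) a c ∧ Cn (insert e w) b c) with hWo
      set l := PO p O F' (fun w => Cn w a b ∧ Cn w v c ∧ ¬ Cn w b c) with hl
      set k := PO p O F' (fun w => Cn w v a ∧ ¬ Cn w v b ∧ ¬ Cn w v c ∧ Cn w b c) with hk
      set g := PO p O F' (fun w => Cn w v a ∧ ¬ Cn w v b ∧ ¬ Cn w v c ∧ ¬ Cn w b c) with hg
      set π := PO p O F' (fun w => Cn w c v ∧ ¬ Cn w b c) with hπ
      have hl0 : 0 ≤ l := po_nonneg hp _ _ _
      have hk0 : 0 ≤ k := po_nonneg hp _ _ _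
      have hg0 : 0 ≤ g := po_nonneg hp _ _ _
      have hπ0 : 0 ≤ π := po_nonneg hp _ _ _
      have hZc0 : 0 ≤ Zc := po_nonneg hp _ _ _
      have hZo0 : 0 ≤ Zo := po_nonneg hp _ _ _
      have hYo1 : Yo ≤ 1 := po_le_one hp _ _ _
      have hYc0 : 0 ≤ Yc := po_nonneg hp _ _ _
      have eY : Yo = Yc + π := by
        refine po_add' (fun w hw => ?_) (fun w hw => ?_)
        · rw [ebc w hw, Cn.comm (x := v)]
          tauto
        · tauto
      have eX : Xo = Xc + (l + k) := by
        have e1 : PO p O F' (fun w => (Cn w a b ∧ Cn w v c ∧ ¬ Cn w b c) ∨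
            (Cn w v a ∧ ¬ Cn w v b ∧ ¬ Cn w v c ∧ Cn w b c)) = l + k :=
          po_add' (fun w hw => Iff.rfl) (fun w hw => by tauto)
        rw [← e1]
        refine po_add' (fun w hw => ?_) (fun w hw => ?_)
        · rw [eac w hw]
          constructor
          · rintro (h | ⟨h1, h2⟩ | ⟨h1, h2⟩)
            · exact Or.inl h
            · by_cases h3 : Cn w b c
              · exact Or.inl (h1.trans h3)
              · exact Or.inr (Or.inl ⟨h1, h2, h3⟩)
            · by_cases h3 : Cn w v c
              · exact Or.inl (h1.trans h3)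
              · exact Or.inr (Or.inr ⟨h1.symm, fun h4 => h3 (h4.trans h2), h3, h2⟩)
          · rintro (h | ⟨h1, h2, h3⟩ | ⟨h1, h2, h3, h4⟩)
            · exact Or.inl h
            · exact Or.inr (Or.inl ⟨h1, h2⟩)
            · exact Or.inr (Or.inr ⟨h1.symm, h4⟩)
        · rintro ⟨h, ⟨h1, h2, h3⟩ | ⟨h1, h2, h3, h4⟩⟩
          · exact h3 (h1.symm.trans h)
          · exact h3 (h1.trans h)
      have eZ : Zo + l = Zc + g := by
        have e1 : PO p O F' (fun w => (Cn (insert e w) a b ∧ ¬ Cn (insert e w) b c) ∨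
            (Cn w a b ∧ Cn w v c ∧ ¬ Cn w b c)) = Zo + l := by
          refine po_add' (fun w hw => Iff.rfl) (fun w hw => ?_)
          rw [ebc w hw]
          tauto
        rw [← e1]
        refine po_add' (fun w hw => ?_) (fun w hw => ?_)
        · rw [ebc w hw, eab w hw]
          constructor
          · rintro (⟨h1 | h1, h2⟩ | ⟨h1, h2, h3⟩)
            · exact Or.inl ⟨h1, fun h => h2 (Or.inl h)⟩
            · by_cases h3 : Cn w a b
              · exact Or.inl ⟨h3, fun h => h2 (Or.inl h)⟩
              · exact Or.inr ⟨h1.symm, fun h => h3 (h1.trans h), fun h => h2 (Or.inr h),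
                  fun h => h2 (Or.inl h)⟩
            · exact Or.inl ⟨h1, h3⟩
          · rintro (⟨h1, h2⟩ | ⟨h1, h2, h3, h4⟩)
            · by_cases h3 : Cn w v c
              · exact Or.inr ⟨h1, h3, h2⟩
              · exact Or.inl ⟨Or.inl h1, by tauto⟩
            · exact Or.inl ⟨Or.inr h1.symm, by tauto⟩
        · rintro ⟨⟨h1, h2⟩, ⟨h3, h4, h5, h6⟩⟩
          exact h4 (h3.trans h1)
      have hnbc : PO p O F' (fun w => ¬ Cn w b c) = 1 - Yc := by
        have h1 : PO p O F' (fun _ => True) = Yc + PO p O F' (fun w => ¬ Cn w b c) :=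
          po_add' (fun w hw => by tauto) (fun w hw => by tauto)
        have h2 : PO p O F' (fun _ => True) = 1 := pr_true _ fun _ _ => trivial
        linarith
      have hBHK : l * (1 - Yc) ≤ Zc * π := by
        have h1 := bhk_po hp hd0 a b c v
        rw [hnbc] at h1
        have h2 : PO p O F' (fun w => Cn w b a ∧ Cn w c v ∧ ¬ Cn w b c) = l :=
          po_congr fun w _ _ => by rw [Cn.comm (x := b) (y := a), Cn.comm (x := c) (y := v)]
        have h3 : PO p O F' (fun w => Cn w b a ∧ ¬ Cn w b c) = Zc :=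
          po_congr fun w _ _ => by rw [Cn.comm (x := b) (y := a)]
        rwa [h2, h3] at h1
      have hStar : k ≤ (k + g) * Yc := by
        have h1 := star_po hp hd0 a b c v
        have h2 : PO p O F' (fun w => Cn w v a ∧ ¬ Cn w v b ∧ ¬ Cn w v c) = k + g :=
          po_add' (fun w hw => by tauto) (fun w hw => by tauto)
        rwa [h2] at h1
      have hZcY : Zc ≤ 1 - Yc := by rw [← hnbc]; exact po_mono hp fun w hw => hw.2
      have hZoY : Zo ≤ 1 - Yo := by
        have h1 : PO p O F' (fun _ => True) = Yo + PO p O F' (fun w => ¬ Cn (insert e w) b c) :=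
          po_add' (fun w hw => by tauto) (fun w hw => by tauto)
        have h2 : PO p O F' (fun _ => True) = 1 := pr_true _ fun _ _ => trivial
        have h3 : Zo ≤ PO p O F' (fun w => ¬ Cn (insert e w) b c) :=
          po_mono hp fun w hw => hw.2
        linarith
      clear_value Xc Yc Zc Wc Xo Yo Zo Wo l k g π
      clear hXc hYc hZc hWc hXo hYo hZo hWo hl hk hg hπ
      have hpe := hp e
      generalize p e = r at *
      -- the relative increment
      set y := 1 - Yc with hy
      have hy0 : 0 ≤ y := hZc0.trans hZcY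
      have hy1 : y ≤ 1 := by linarith
      obtain ⟨θ, hθ0, hθ1, hθ, hlz, hz1⟩ : ∃ θ : ℝ, 0 ≤ θ ∧ θ ≤ 1 ∧ π = θ * y ∧
          θ * l ≤ θ * (θ * Zc) ∧ Zc * (1 - θ) ≤ Zo := by
        rcases hy0.eq_or_lt with h0 | h0
        · exact ⟨0, le_rfl, zero_le_one, by linarith, by simp, by linarith⟩
        · have h1 : π / y * y = π := by field_simp
          have h2 : l ≤ π / y * Zc := by
            refine le_of_mul_le_mul_right ?_ h0
            calc l * y ≤ Zc * π := hBHK
              _ = π / y * Zc * y := by rw [mul_right_comm, h1]; ring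
          refine ⟨π / y, div_nonneg hπ0 hy0, (div_le_one h0).2 (by linarith), h1.symm,
            mul_le_mul_of_nonneg_left h2 (div_nonneg hπ0 hy0), ?_⟩
          linarith
      have hky : k * y ≤ g * (1 - y) := by
        have : Yc = 1 - y := by rw [hy]; ring
        rw [this] at hStar
        linarith
      have hlk : (l + k) * π ≤ θ * (θ * Zc + (Zo - Zc) * (1 - y)) := by
        have h1 : (l + k) * π = θ * (l * y + k * y) := by rw [hθ]; ring
        have h2 : θ * (l * y + k * y) ≤ θ * (l * y + g * (1 - y)) :=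
          mul_le_mul_of_nonneg_left (by linarith) hθ0
        have h3 : g = Zo - Zc + l := by linarith
        have h4 : θ * (l * y + g * (1 - y)) = θ * l + θ * ((Zo - Zc) * (1 - y)) := by
          rw [h3]; ring
        rw [h1]
        calc θ * (l * y + k * y) ≤ θ * (l * y + g * (1 - y)) := h2
          _ = θ * l + θ * ((Zo - Zc) * (1 - y)) := h4
          _ ≤ θ * (θ * Zc) + θ * ((Zo - Zc) * (1 - y)) := by linarith
          _ = θ * (θ * Zc + (Zo - Zc) * (1 - y)) := by ring
      have hYo' : 1 - Yo = y * (1 - θ) := by rw [eY, hθ, hy]; ring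
      have hbell := bellman hpe.1 hpe.2 hθ0 hθ1 hZc0 hZcY hy1 hz1 (by rw [← hYo']; exact hZoY)
      rw [hYo'] at ih1
      have hYav : 1 - (r * Yo + (1 - r) * Yc) = y * (1 - r * θ) := by
        rw [eY, hθ, hy]; ring
      rw [hYav]
      have hrq : 0 ≤ r * (1 - r) := mul_nonneg hpe.1 (by linarith [hpe.2])
      have t1 := mul_le_mul_of_nonneg_left ih1 hpe.1
      have t0 := mul_le_mul_of_nonneg_left ih0 (by linarith [hpe.2] : 0 ≤ 1 - r)
      have t2 := mul_le_mul_of_nonneg_left hlk hrq
      have eW : r * Wo + (1 - r) * Wc - (r * Xo + (1 - r) * Xc) * (r * Yo + (1 - r) * Yc) =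
          r * (Wo - Xo * Yo) + (1 - r) * (Wc - Xc * Yc) + r * (1 - r) * ((l + k) * π) := by
        rw [eX, eY]; ring
      rw [eW]
      linarith
    · push Not at h
      have hc : ∀ w : Set (Sym2 V), (O : Set (Sym2 V)) ⊆ w → w ⊆ (O : Set (Sym2 V)) ∪ F →
          (Cn w b c ↔ Cn (O : Set (Sym2 V)) b c) :=
        fun w hw hw' => cluster_final h hw hw'
      by_cases hbc : Cn (O : Set (Sym2 V)) b c
      · have h1 : PO p O F (fun w => Cn w a c ∧ Cn w b c) = PO p O F (fun w => Cn w a c) :=
          po_congr fun w hw hw' => ⟨fun h => h.1, fun h => ⟨h, (hc w hw hw').2 hbc⟩⟩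
        have h2 : PO p O F (fun w => Cn w b c) = 1 := by
          rw [po_congr (B := fun _ => True) fun w hw hw' =>
            ⟨fun _ => trivial, fun _ => (hc w hw hw').2 hbc⟩]
          exact pr_true _ fun _ _ => trivial
        rw [h1, h2]
        have := hPhi (1 - 1) (PO p O F (fun w => Cn w a b ∧ ¬ Cn w b c))
        linarith
      · have h1 : PO p O F (fun w => Cn w a c ∧ Cn w b c) = 0 := by
          rw [po_congr (B := fun _ => False) fun w hw hw' =>
            ⟨fun h => hbc ((hc w hw hw').1 h.2), fun h => h.elim⟩]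
          exact pr_false _ fun _ _ h => h
        have h2 : PO p O F (fun w => Cn w b c) = 0 := by
          rw [po_congr (B := fun _ => False) fun w hw hw' =>
            ⟨fun h => hbc ((hc w hw hw').1 h), fun h => h.elim⟩]
          exact pr_false _ fun _ _ h => h
        rw [h1, h2, mul_zero, sub_zero]
        exact hPhi _ _

end

end Pool.Agent.MP_e813d2_pr
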