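import Mathlib
import Pool.Agent.MP_e813d2_pr.Main

set_option autoImplicit false
set_option linter.unusedSectionVars false
set_option linter.unusedVariables false

open MeasureTheory ProbabilityTheory Filter Topology

namespace Pool.Agent.MP_e813d2_pr

section Measure
variable {ι : Type*} [DecidableEq ι]

/-- Product Bernoulli measure. -/
noncomputable def bern (p : ι → unitInterval) : Measure (ι → Bool) :=
  Measure.infinitePi fun e => bernoulliMeasure true false (p e)

instance (p : ι → unitInterval) : IsProbabilityMeasure (bern p) := by
  unfold bern; infer_instance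

theorem bern_atom (p : ι → unitInterval) {F w : Finset ι} (hw : w ⊆ F) :
    (bern p).real {ω | F.filter (fun e => ω e = true) = w} =
      (∏ e ∈ w, (p e : ℝ)) * ∏ e ∈ F \ w, (1 - (p e : ℝ)) := by
  have hset : {ω : ι → Bool | F.filter (fun e => ω e = true) = w} =
      Set.pi (F : Set ι) (fun e => if e ∈ w then {true} else {false}) := by
    ext ω
    simp only [Set.mem_ofPred_eq, Set.mem_pi, Finset.mem_coe]
    constructor
    · intro h e he
      by_cases hew : e ∈ w
      · have : e ∈ F.filter (fun e => ω e = true) := by rw [h]; exact hew
        simpa [hew] using (Finset.mem_filter.1 this).2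
      · have : e ∉ F.filter (fun e => ω e = true) := by rw [h]; exact hew
        have h2 : ¬ ω e = true := fun h' => this (Finset.mem_filter.2 ⟨he, h'⟩)
        simpa [hew] using h2
    · intro h
      ext e
      rw [Finset.mem_filter]
      constructor
      · rintro ⟨he, h1⟩
        by_contra hew
        have := h e he
        simp [hew, h1] at this
      · intro hew
        refine ⟨hw hew, ?_⟩
        have := h e (hw hew)
        simpa [hew] using this
  rw [hset, measureReal_def, bern, Measure.infinitePi_pi _ (fun e _ => by split_ifs <;> measurability),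
    ENNReal.toReal_prod, ← Finset.prod_sdiff hw, mul_comm]
  congr 1
  · refine Finset.prod_congr rfl fun e he => ?_
    rw [if_pos he, ← measureReal_def]
    simp
  · refine Finset.prod_congr rfl fun e he => ?_
    rw [if_neg (Finset.mem_sdiff.1 he).2, ← measureReal_def]
    simp

theorem bern_cyl (p : ι → unitInterval) (F : Finset ι) (A : Finset ι → Prop) :
    (bern p).real {ω | A (F.filter (fun e => ω e = true))} = Pr (fun e => (p e : ℝ)) F A := by
  classical
  have hset : {ω : ι → Bool | A (F.filter (fun e => ω e = true))} =
      ⋃ w ∈ F.powerset.filter A, {ω | F.filter (fun e => ω e = true) = w} := by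
    ext ω
    simp only [Set.mem_ofPred_eq, Set.mem_iUnion, Finset.mem_filter, Finset.mem_powerset,
      exists_prop, exists_eq_right']
    exact ⟨fun h => ⟨Finset.filter_subset _ _, h⟩, fun h => h.2⟩
  have hmeas : ∀ w : Finset ι, MeasurableSet {ω : ι → Bool | F.filter (fun e => ω e = true) = w} := by
    intro w
    have : {ω : ι → Bool | F.filter (fun e => ω e = true) = w} =
        ⋂ e ∈ (F ∪ w), {ω : ι → Bool | (e ∈ F ∧ ω e = true) ↔ e ∈ w} := by
      ext ω
      simp only [Set.mem_ofPred_eq, Set.mem_iInter, Finset.ext_iff, Finset.mem_filter]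
      constructor
      · intro h e _
        exact h e
      · intro h e
        by_cases he : e ∈ F ∪ w
        · exact h e he
        · rw [Finset.mem_union, not_or] at he
          simp [he.1, he.2]
    rw [this]
    refine Finset.measurableSet_biInter _ fun e _ => ?_
    have : {ω : ι → Bool | (e ∈ F ∧ ω e = true) ↔ e ∈ w} =
        (fun ω : ι → Bool => ω e) ⁻¹' {b | (e ∈ F ∧ b = true) ↔ e ∈ w} := rfl
    rw [this]
    exact (measurable_pi_apply e) (MeasurableSet.of_discrete)
  rw [hset, measureReal_biUnion_finset ?_ (fun w _ => hmeas w)]
  · unfold Pr Ex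
    rw [Finset.sum_filter]
    refine Finset.sum_congr rfl fun w hw => ?_
    beta_reduce
    split_ifs with hA
    · rw [bern_atom p (Finset.mem_powerset.1 hw), ind_true hA, mul_one]
    · rw [ind_false hA, mul_zero]
  · intro w1 _ w2 _ hne
    rw [Function.onFun, Set.disjoint_left]
    intro ω h1 h2
    exact hne (h1.symm.trans h2)

end Measure

section Graph
variable {V : Type*} [DecidableEq V]

theorem pr_map {ι : Type*} [DecidableEq ι] (f : ι ↪ Sym2 V) (q : ι → ℝ) (q' : Sym2 V → ℝ)
    (hq : ∀ e, q' (f e) = q e) (F : Finset ι) : ∀ (A : Finset (Sym2 V) → Prop),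
    Pr q F (fun w => A (w.map f)) = Pr q' (F.map f) A := by
  induction F using Finset.induction_on with
  | empty =>
    intro A
    simp [Pr, ex_empty]
  | insert e F he ih =>
    intro A
    rw [pr_insert q he, Finset.map_insert, pr_insert q' (by simpa using he), hq, ih]
    congr 2
    rw [← ih]
    refine pr_congr q fun w _ => ?_
    rw [Finset.map_insert]

end Graph

/-- In a connected locally finite graph there are countably many vertices. -/
theorem countable_of_locallyFinite {V : Type*} (G : SimpleGraph V) [G.LocallyFinite]
    (hG : G.Connected) : Countable V := by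
  have hfin : ∀ (n : ℕ) (v : V), {u | ∃ q : G.Walk v u, q.length = n}.Finite := by
    intro n
    induction n with
    | zero =>
      intro v
      refine (Set.finite_singleton v).subset ?_
      rintro u ⟨q, hq⟩
      exact (SimpleGraph.Walk.eq_of_length_eq_zero hq).symm
    | succ n ih =>
      intro v
      have : {u | ∃ q : G.Walk v u, q.length = n + 1} ⊆
          ⋃ w ∈ G.neighborSet v, {u | ∃ q : G.Walk w u, q.length = n} := by
        rintro u ⟨q, hq⟩
        cases q with
        | nil => simp at hq
        | cons h q' =>
          simp only [Set.mem_iUnion]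
          exact ⟨_, h, q', by simpa using hq⟩
      exact (Set.Finite.biUnion (Set.toFinite _) fun w _ => ih w).subset this
  obtain ⟨v⟩ := hG.nonempty
  have huniv : (Set.univ : Set V) ⊆ ⋃ n : ℕ, {u | ∃ q : G.Walk v u, q.length = n} := by
    intro u _
    obtain ⟨q⟩ := hG.preconnected v u
    exact Set.mem_iUnion.2 ⟨q.length, q, rfl⟩
  have hc : (Set.univ : Set V).Countable :=
    (Set.countable_iUnion fun n => (hfin n v).countable).mono huniv
  exact Set.countable_univ_iff.1 hc

end Pool.Agent.MP_e813d2_pr
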