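import Mathlib
import Pool.Agent.MP_e813d2_pr.Defs
import Pool.Agent.MP_e813d2_pr.Perc

set_option autoImplicit false
set_option linter.unusedSectionVars false

open MeasureTheory ProbabilityTheory Filter Topology

namespace Pool.Agent.MP_e813d2_pr

section Proof

variable {V : Type*} {G : SimpleGraph V}

/-- The set of open edges. -/
def opn (ω : G.edgeSet → Bool) : Set (Sym2 V) := {e | ∃ h : e ∈ G.edgeSet, ω ⟨e, h⟩ = true}

theorem sameCluster_iff {ω : G.edgeSet → Bool} {x y : V} :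
    SameCluster G ω x y ↔ Cn (opn ω) x y := by
  unfold SameCluster Cn
  rw [SimpleGraph.reachable_iff_reflTransGen]
  rfl

theorem sameCluster_comm {ω : G.edgeSet → Bool} {x y : V} :
    SameCluster G ω x y ↔ SameCluster G ω y x := SimpleGraph.reachable_comm

/-- The embedding of the edges of `G` in `Sym2 V`. -/
def emb (G : SimpleGraph V) : G.edgeSet ↪ Sym2 V := ⟨Subtype.val, Subtype.val_injective⟩

variable [DecidableEq V]

/-- The open edges inside `F`. -/
noncomputable def opnF (F : Finset G.edgeSet) (ω : G.edgeSet → Bool) : Finset (Sym2 V) :=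
  (F.filter (fun e => ω e = true)).map (emb G)

theorem mem_opnF {F : Finset G.edgeSet} {ω : G.edgeSet → Bool} {e : Sym2 V} :
    e ∈ opnF F ω ↔ ∃ h : e ∈ G.edgeSet, (⟨e, h⟩ : G.edgeSet) ∈ F ∧ ω ⟨e, h⟩ = true := by
  unfold opnF emb
  simp only [Finset.mem_map, Finset.mem_filter, Function.Embedding.coeFn_mk]
  constructor
  · rintro ⟨e', ⟨h1, h2⟩, rfl⟩
    exact ⟨e'.2, h1, h2⟩
  · rintro ⟨h, h1, h2⟩
    exact ⟨⟨e, h⟩, ⟨h1, h2⟩, rfl⟩

theorem opnF_mono {F F' : Finset G.edgeSet} (h : F ⊆ F') (ω : G.edgeSet → Bool) :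
    (opnF F ω : Set (Sym2 V)) ⊆ opnF F' ω := by
  intro e he
  rw [Finset.mem_coe, mem_opnF] at *
  obtain ⟨h1, h2, h3⟩ := he
  exact ⟨h1, h h2, h3⟩

theorem opnF_subset (F : Finset G.edgeSet) (ω : G.edgeSet → Bool) :
    (opnF F ω : Set (Sym2 V)) ⊆ opn ω := by
  intro e he
  rw [Finset.mem_coe, mem_opnF] at he
  obtain ⟨h1, h2, h3⟩ := he
  exact ⟨h1, h3⟩

/-- Edge probabilities extended by zero. -/
noncomputable def ext (p : G.edgeSet → unitInterval) (e : Sym2 V) : ℝ := by
  classical exact if h : e ∈ G.edgeSet then p ⟨e, h⟩ else 0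

theorem ext_mem (p : G.edgeSet → unitInterval) (e : Sym2 V) : 0 ≤ ext p e ∧ ext p e ≤ 1 := by
  unfold ext
  split_ifs with h
  · exact (p ⟨e, h⟩).2
  · exact ⟨le_rfl, zero_le_one⟩

theorem perc_cyl (p : G.edgeSet → unitInterval) (F : Finset G.edgeSet)
    (A : Set (Sym2 V) → Prop) :
    (perc G p).real {ω | A (opnF F ω)} = PO (ext p) ∅ (F.map (emb G)) A := by
  have h1 := bern_cyl p F (fun w => A (w.map (emb G)))
  have h2 : (perc G p).real {ω | A (opnF F ω)} =
      Pr (fun e => (p e : ℝ)) F (fun w => A (w.map (emb G))) := h1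
  rw [h2, pr_map (emb G) (fun e => (p e : ℝ)) (ext p) (fun e => by simp [ext, emb]) F
    (fun w => A w)]
  unfold PO
  exact pr_congr _ fun w _ => by rw [Finset.empty_union]

theorem measurable_cyl (F : Finset G.edgeSet) (A : Set (Sym2 V) → Prop) :
    MeasurableSet {ω : G.edgeSet → Bool | A (opnF F ω)} := by
  have h : {ω : G.edgeSet → Bool | A (opnF F ω)} =
      F.restrict ⁻¹' {g : F → Bool | A (opnF F (fun e => if h : e ∈ F then g ⟨e, h⟩ else false))} := by
    ext ω
    simp only [Set.mem_ofPred_eq, Set.mem_preimage]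
    have : opnF F ω = opnF F (fun e => if h : e ∈ F then F.restrict ω ⟨e, h⟩ else false) := by
      ext e
      rw [mem_opnF, mem_opnF]
      refine exists_congr fun h => and_congr_right fun h' => ?_
      simp [h']
    rw [← this]
  rw [h]
  exact (Finset.measurable_restrict F) (MeasurableSet.of_discrete)

instance (p : G.edgeSet → unitInterval) : IsProbabilityMeasure (perc G p) := by
  unfold perc; infer_instance

/-- An increasing event which is determined by finitely many edges. -/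
structure Fin' (Fs : ℕ → Finset G.edgeSet) (A : Set (Sym2 V) → Prop) : Prop where
  mono : ∀ w w' : Set (Sym2 V), w ⊆ w' → A w → A w'
  fin : ∀ ω : G.edgeSet → Bool, A (opn ω) → ∃ n, A (opnF (Fs n) ω)

theorem Fin'.eq_iUnion {Fs : ℕ → Finset G.edgeSet} {A : Set (Sym2 V) → Prop} (h : Fin' Fs A) :
    {ω : G.edgeSet → Bool | A (opn ω)} = ⋃ n, {ω | A (opnF (Fs n) ω)} := by
  ext ω
  simp only [Set.mem_ofPred_eq, Set.mem_iUnion]
  exact ⟨h.fin ω, fun ⟨n, hn⟩ => h.mono _ _ (opnF_subset _ _) hn⟩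

theorem Fin'.measurable {Fs : ℕ → Finset G.edgeSet} {A : Set (Sym2 V) → Prop} (h : Fin' Fs A) :
    MeasurableSet {ω : G.edgeSet → Bool | A (opn ω)} := by
  rw [h.eq_iUnion]
  exact MeasurableSet.iUnion fun n => measurable_cyl _ _

theorem Fin'.tendsto {Fs : ℕ → Finset G.edgeSet} (hFs : Monotone Fs)
    {A : Set (Sym2 V) → Prop} (h : Fin' Fs A) (p : G.edgeSet → unitInterval) :
    Tendsto (fun n => PO (ext p) ∅ ((Fs n).map (emb G)) A) atTop
      (𝓝 ((perc G p).real {ω | A (opn ω)})) := by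
  have h1 : Monotone fun n => {ω : G.edgeSet → Bool | A (opnF (Fs n) ω)} :=
    fun n m hnm ω hω => h.mono _ _ (opnF_mono (hFs hnm) ω) hω
  have h2 := tendsto_measure_iUnion_atTop (μ := perc G p) h1
  rw [← h.eq_iUnion] at h2
  have h3 := (ENNReal.tendsto_toReal (measure_ne_top (perc G p) _)).comp h2
  refine h3.congr fun n => ?_
  rw [← perc_cyl]
  rfl

theorem fin'_cn {Fs : ℕ → Finset G.edgeSet} (hFs : Monotone Fs) (hcov : ∀ e, ∃ n, e ∈ Fs n)
    (x y : V) : Fin' Fs (fun w => Cn w x y) where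
  mono w w' hw h := h.mono hw
  fin ω h := by
    induction h with
    | refl => exact ⟨0, Cn.refl _ _⟩
    | tail _ hbc ih =>
      obtain ⟨n, hn⟩ := ih
      obtain ⟨h1, h2⟩ := hbc
      obtain ⟨m, hm⟩ := hcov ⟨_, h1⟩
      refine ⟨max n m, ?_⟩
      refine (hn.mono (opnF_mono (hFs (le_max_left n m)) ω)).trans (Cn.single ?_)
      rw [Finset.mem_coe, mem_opnF]
      exact ⟨h1, hFs (le_max_right n m) hm, h2⟩

theorem Fin'.and {Fs : ℕ → Finset G.edgeSet} (hFs : Monotone Fs) {A B : Set (Sym2 V) → Prop}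
    (hA : Fin' Fs A) (hB : Fin' Fs B) : Fin' Fs (fun w => A w ∧ B w) where
  mono w w' hw h := ⟨hA.mono _ _ hw h.1, hB.mono _ _ hw h.2⟩
  fin ω h := by
    obtain ⟨n, hn⟩ := hA.fin ω h.1
    obtain ⟨m, hm⟩ := hB.fin ω h.2
    exact ⟨max n m, hA.mono _ _ (opnF_mono (hFs (le_max_left n m)) ω) hn,
      hB.mono _ _ (opnF_mono (hFs (le_max_right n m)) ω) hm⟩

theorem exists_exhaustion [G.LocallyFinite] (hG : G.Connected) :
    ∃ Fs : ℕ → Finset G.edgeSet, Monotone Fs ∧ ∀ e, ∃ n, e ∈ Fs n := by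
  have : Countable V := countable_of_locallyFinite G hG
  have : Countable (Sym2 V) := Quotient.countable
  obtain ⟨f, hf⟩ := Countable.exists_injective_nat G.edgeSet
  have hfin : ∀ n : ℕ, {e : G.edgeSet | f e < n}.Finite := fun n =>
    (Set.finite_lt_nat n).preimage hf.injOn
  refine ⟨fun n => (hfin n).toFinset, ?_, ?_⟩
  · intro n m hnm e he
    rw [Set.Finite.mem_toFinset] at *
    exact lt_of_lt_of_le he hnm
  · intro e
    refine ⟨f e + 1, ?_⟩
    rw [Set.Finite.mem_toFinset]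
    exact Nat.lt_succ_self _

theorem measurable_sameCluster [G.LocallyFinite] (hG : G.Connected) (x y : V) :
    MeasurableSet {ω : G.edgeSet → Bool | SameCluster G ω x y} := by
  obtain ⟨Fs, hFs, hcov⟩ := exists_exhaustion hG
  simp only [sameCluster_iff]
  exact (fin'_cn hFs hcov x y).measurable

/-- The quantitative inequality in a connected locally finite graph. -/
theorem quantitative [G.LocallyFinite] (hG : G.Connected) (a b c : V)
    (p : G.edgeSet → unitInterval) :
    (perc G p).real {ω | SameCluster G ω a c ∧ SameCluster G ω b c} -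
      (perc G p).real {ω | SameCluster G ω a c} * (perc G p).real {ω | SameCluster G ω b c} ≤
    44 * √((perc G p).real {ω | SameCluster G ω a b ∧ ¬ SameCluster G ω b c}) := by
  obtain ⟨Fs, hFs, hcov⟩ := exists_exhaustion hG
  have hac := fin'_cn (G := G) hFs hcov a c
  have hbc := fin'_cn (G := G) hFs hcov b c
  have hab := fin'_cn (G := G) hFs hcov a b
  have hW := (hac.and hFs hbc).tendsto hFs p
  have hX := hac.tendsto hFs p
  have hY := hbc.tendsto hFs p
  have hAB := hab.tendsto hFs p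
  have hABC := (hab.and hFs hbc).tendsto hFs p
  have hZ : Tendsto (fun n => PO (ext p) ∅ ((Fs n).map (emb G)) (fun w => Cn w a b ∧ ¬ Cn w b c))
      atTop (𝓝 ((perc G p).real {ω | Cn (opn ω) a b ∧ ¬ Cn (opn ω) b c})) := by
    have e1 : (perc G p).real {ω | Cn (opn ω) a b ∧ ¬ Cn (opn ω) b c} =
        (perc G p).real {ω | Cn (opn ω) a b} -
          (perc G p).real {ω | Cn (opn ω) a b ∧ Cn (opn ω) b c} := by
      have := measureReal_inter_add_sdiff (μ := perc G p) (s := {ω | Cn (opn ω) a b})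
        hbc.measurable
      have e2 : {ω : G.edgeSet → Bool | Cn (opn ω) a b} ∩ {ω | Cn (opn ω) b c} =
        {ω | Cn (opn ω) a b ∧ Cn (opn ω) b c} := rfl
      have e3 : {ω : G.edgeSet → Bool | Cn (opn ω) a b} \ {ω | Cn (opn ω) b c} =
        {ω | Cn (opn ω) a b ∧ ¬ Cn (opn ω) b c} := rfl
      rw [e2, e3] at this
      linarith
    rw [e1]
    refine (hAB.sub hABC).congr fun n => ?_
    have := po_add' (p := ext p) (O := ∅) (F := (Fs n).map (emb G))
      (A := fun w => Cn w a b) (B := fun w => Cn w a b ∧ Cn w b c)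
      (C := fun w => Cn w a b ∧ ¬ Cn w b c) (fun w _ => by tauto) (fun w _ => by tauto)
    linarith
  simp only [sameCluster_iff]
  have hineq : ∀ n, PO (ext p) ∅ ((Fs n).map (emb G)) (fun w => Cn w a c ∧ Cn w b c) -
      PO (ext p) ∅ ((Fs n).map (emb G)) (fun w => Cn w a c) *
        PO (ext p) ∅ ((Fs n).map (emb G)) (fun w => Cn w b c) ≤
      44 * √(PO (ext p) ∅ ((Fs n).map (emb G)) (fun w => Cn w a b ∧ ¬ Cn w b c)) := by
    intro n
    refine (main_finite (ext_mem p) a b c _ ∅ (Finset.disjoint_empty_left _)).trans ?_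
    unfold Phi
    have hz0 : 0 ≤ PO (ext p) ∅ ((Fs n).map (emb G)) (fun w => Cn w a b ∧ ¬ Cn w b c) :=
      po_nonneg (ext_mem p) _ _ _
    have hy0 : 0 ≤ PO (ext p) ∅ ((Fs n).map (emb G)) (fun w => Cn w b c) :=
      po_nonneg (ext_mem p) _ _ _
    have : √(PO (ext p) ∅ ((Fs n).map (emb G)) (fun w => Cn w a b ∧ ¬ Cn w b c) *
        (1 - PO (ext p) ∅ ((Fs n).map (emb G)) (fun w => Cn w b c))) ≤
        √(PO (ext p) ∅ ((Fs n).map (emb G)) (fun w => Cn w a b ∧ ¬ Cn w b c)) :=
      Real.sqrt_le_sqrt (mul_le_of_le_one_right hz0 (by linarith))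
    linarith
  exact le_of_tendsto_of_tendsto' (hW.sub (hX.mul hY))
    ((Real.continuous_sqrt.tendsto _ |>.comp hZ).const_mul 44) hineq

end Proof

end Pool.Agent.MP_e813d2_pr
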